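import Pool.Agent.Lib.MP_efa496_an.Space

/-!
Decay in a sector of functions vanishing on the zeros of `1 + exp (γ μ ^ 2)`, and an entire function
that is bounded outside one sector.
-/

set_option autoImplicit false

namespace Pool.Agent.Lib.MP_efa496_an.Sh

open Complex Filter Topology Set

/-- Division on an open set by an entire function with simple zeros. -/
lemma exists_div_on {O : Set ℂ} (hO : IsOpen O) {g E : ℂ → ℂ} (hg : DifferentiableOn ℂ g O)
    (hE : Differentiable ℂ E) (hs : ∀ c, E c = 0 → deriv E c ≠ 0)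
    (hz : ∀ c ∈ O, E c = 0 → g c = 0) :
    ∃ h : ℂ → ℂ, DifferentiableOn ℂ h O ∧ ∀ z ∈ O, g z = E z * h z := by
  classical
  refine ⟨fun z => if E z = 0 then deriv g z / deriv E z else g z / E z, fun c hcO => ?_,
    fun z hzO => ?_⟩
  · refine DifferentiableAt.differentiableWithinAt ?_
    have hn := hO.mem_nhds hcO
    by_cases hc : E c = 0
    · have dg : DifferentiableAt ℂ (dslope g c) c :=
        ((Complex.differentiableOn_dslope hn).mpr hg).differentiableAt hn
      have dE : Differentiable ℂ (dslope E c) := by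
        rw [← differentiableOn_univ]
        exact (Complex.differentiableOn_dslope (Filter.univ_mem)).mpr hE.differentiableOn
      have hne : dslope E c c ≠ 0 := by
        rw [dslope_same]
        exact hs c hc
      refine (dg.div (dE c) hne).congr_of_eventuallyEq ?_
      filter_upwards [dE.continuous.continuousAt.eventually_ne hne] with z hz'
      by_cases hzc : z = c
      · subst hzc
        simp [hc, dslope_same]
      · have e1 : (z - c) * dslope E c z = E z := by
          simpa [hc] using sub_smul_dslope E c z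
        have e2 : (z - c) * dslope g c z = g z := by
          simpa [hz c hcO hc] using sub_smul_dslope g c z
        have hzc' : z - c ≠ 0 := sub_ne_zero.mpr hzc
        have e3 : E z ≠ 0 := e1 ▸ mul_ne_zero hzc' hz'
        simp only [e3, if_false, Pi.div_apply]
        rw [← e1, ← e2]
        field_simp
    · refine ((hg.differentiableAt hn).div (hE c) hc).congr_of_eventuallyEq ?_
      filter_upwards [hE.continuous.continuousAt.eventually_ne hc] with z hz'
      simp [hz']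
  · by_cases hc : E z = 0
    · simp [hc, hz z hzO hc]
    · simp only [hc, if_false]
      field_simp

lemma lower_left {w : ℂ} (h0 : w.re ≤ 0) (h : |w.im| ≤ 100 * |w.re|) :
    1 / 200 ≤ ‖1 + exp w‖ := by
  rw [abs_of_nonpos h0] at h
  by_cases h1 : |w.im| ≤ 1
  · refine le_trans ?_ (Complex.re_le_norm _)
    rw [add_re, Complex.exp_re, one_re]
    have := mul_nonneg (Real.exp_pos w.re).le (Real.cos_pos_of_le_one h1).le
    linarith
  · have a1 := norm_sub_le (1 + exp w) (exp w)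
    rw [add_sub_cancel_right, norm_one, Complex.norm_exp] at a1
    have a2 := Real.add_one_le_exp (-w.re)
    have a3 : Real.exp w.re * Real.exp (-w.re) = 1 := by rw [← Real.exp_add]; simp
    have a4 := Real.exp_pos w.re
    nlinarith

lemma lower_ray {w : ℂ} (h : |w.im| ≤ 100 * |w.re|) :
    Real.exp (max 0 w.re) / 200 ≤ ‖1 + exp w‖ := by
  rcases le_total w.re 0 with h0 | h0
  · rw [max_eq_left h0, Real.exp_zero]
    exact lower_left h0 h
  · have a := lower_left (w := -w) (by simpa using h0) (by simpa using h)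
    have e : 1 + exp w = exp w * (1 + exp (-w)) := by
      rw [mul_add, ← Complex.exp_add, add_neg_cancel, Complex.exp_zero, mul_one, add_comm]
    rw [max_eq_right h0, e, norm_mul, Complex.norm_exp, div_eq_mul_one_div]
    exact mul_le_mul_of_nonneg_left a (Real.exp_pos _).le

lemma upper_all (w : ℂ) : ‖1 + exp w‖ ≤ 2 * Real.exp (max 0 w.re) := by
  have a1 := norm_add_le 1 (exp w)
  rw [norm_one, Complex.norm_exp] at a1
  linarith [Real.one_le_exp (le_max_left 0 w.re), Real.exp_le_exp.2 (le_max_right 0 w.re)]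

lemma cube_re {μ : ℂ} (h : 2 * |μ.im| ≤ μ.re) : μ.re ^ 3 / 4 ≤ (μ ^ 3).re := by
  have h0 : 0 ≤ μ.re := le_trans (by positivity) h
  have e : (μ ^ 3).re = μ.re ^ 3 - 3 * μ.re * μ.im ^ 2 := by
    simp [pow_succ]
    ring
  have a : 4 * μ.im ^ 2 ≤ μ.re ^ 2 := by
    rw [← sq_abs μ.im]
    nlinarith [abs_nonneg μ.im]
  rw [e]
  nlinarith [mul_le_mul_of_nonneg_left a h0]

theorem decay {O : Set ℂ} (hO : IsOpen O) (hS : ∀ μ : ℂ, 2 * |μ.im| ≤ μ.re → μ ∈ O)
    {g : ℂ → ℂ} (hg : DifferentiableOn ℂ g O) {γ : ℂ} (hγ : γ ≠ 0)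
    (hz : ∀ μ ∈ O, 1 + exp (γ * μ ^ 2) = 0 → g μ = 0) {δ A l : ℝ} (hδ : 0 ≤ δ)
    (hM : ∀ μ : ℂ, 2 * |μ.im| = μ.re → |(γ * μ ^ 2).im| ≤ 100 * |(γ * μ ^ 2).re|)
    (hall : ∀ μ : ℂ, 2 * |μ.im| ≤ μ.re → ‖g μ‖ ≤ δ * Real.exp (A * (μ ^ 2).re))
    (hray : ∀ μ : ℂ, 2 * |μ.im| = μ.re →
      ‖g μ‖ ≤ δ * Real.exp (max 0 (γ * μ ^ 2).re + l * (μ ^ 2).re))
    (μ : ℂ) (hμ : 2 * |μ.im| ≤ μ.re) :
    ‖g μ‖ ≤ 400 * δ * Real.exp (max 0 (γ * μ ^ 2).re + l * (μ ^ 2).re) := by
  rcases hμ.eq_or_lt with h0 | h0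
  · refine (hray μ h0).trans (mul_le_mul_of_nonneg_right (by linarith) (Real.exp_pos _).le)
  obtain ⟨h, hh, hgh⟩ := exists_div_on hO hg (E := fun z => 1 + exp (γ * z ^ 2)) (by fun_prop)
    (fun c hc => by
      have d : HasDerivAt (fun z : ℂ => 1 + exp (γ * z ^ 2)) (exp (γ * c ^ 2) * (γ * (2 * c))) c :=
        (by simpa using ((hasDerivAt_pow 2 c).const_mul γ).cexp :
          HasDerivAt (fun z : ℂ => exp (γ * z ^ 2)) _ c).const_add 1
      rw [d.deriv]
      refine mul_ne_zero (Complex.exp_ne_zero _) (mul_ne_zero hγ (mul_ne_zero two_ne_zero ?_))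
      rintro rfl
      norm_num at hc) hz
  have hγ' : 0 < ‖γ‖ := norm_pos_iff.2 hγ
  have key : ∀ η : ℝ, 0 < η →
      ‖h μ‖ * Real.exp (-(l * (μ ^ 2).re) - η * (μ ^ 3).re) ≤ 200 * δ := fun η hη => by
    have hn : ∀ z : ℂ, ‖h z * exp (-(l * z ^ 2) - η * z ^ 3)‖ =
        ‖h z‖ * Real.exp (-(l * (z ^ 2).re) - η * (z ^ 3).re) := fun z => by
      rw [norm_mul, Complex.norm_exp, sub_re, neg_re, re_ofReal_mul, re_ofReal_mul]
    set B : ℝ := 4 * (|A| + |l|) / η with hB
    have hB0 : 0 ≤ B := by positivity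
    obtain ⟨N, hN⟩ := exists_nat_gt (max (‖γ * μ ^ 2‖ + 1) (‖γ‖ * (2 * B) ^ 2))
    have hN1 := (le_max_left _ _).trans_lt hN
    have hN2 := (le_max_right _ _).trans_lt hN
    have hN3 : (1 : ℝ) ≤ N := by linarith [norm_nonneg (γ * μ ^ 2)]
    have hpi := Real.pi_gt_three
    set R := Ioo (-(N : ℝ)) N ×ℂ Ioo (-(2 * Real.pi * N)) (2 * Real.pi * N) with hR
    have hRo : IsOpen R := isOpen_Ioo.reProdIm isOpen_Ioo
    have hin : ∀ s : ℂ, ‖s‖ < N → s ∈ R := fun s hs => by
      have a1 := abs_lt.1 ((Complex.abs_re_le_norm s).trans_lt hs)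
      have a2 := abs_lt.1 ((Complex.abs_im_le_norm s).trans_lt hs)
      exact ⟨a1, by nlinarith [a2.1], by nlinarith [a2.2]⟩
    have c1 : Continuous fun z : ℂ => 2 * |z.im| := by fun_prop
    have c2 : Continuous fun z : ℂ => γ * z ^ 2 := by fun_prop
    have hcl := closure_lt_subset_le c1 continuous_re
    rw [← hn]
    refine Complex.norm_le_of_forall_mem_frontier_norm_le
      (U := {z : ℂ | 2 * |z.im| < z.re} ∩ (fun z : ℂ => γ * z ^ 2) ⁻¹' R)
      (f := fun z => h z * exp (-(l * z ^ 2) - η * z ^ 3)) ?_ ?_ (fun z hz => ?_)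
      (subset_closure ⟨h0, hin _ (by linarith)⟩)
    · obtain ⟨K, hK⟩ := isBounded_iff_forall_norm_le.1
        ((Metric.isBounded_Ioo (-(N : ℝ)) N).reProdIm
          (Metric.isBounded_Ioo (-(2 * Real.pi * N)) (2 * Real.pi * N)))
      refine isBounded_iff_forall_norm_le.2 ⟨K / ‖γ‖ + 1, fun z hz => ?_⟩
      have a := hK _ hz.2
      rw [norm_mul, norm_pow, mul_comm, ← le_div_iff₀ hγ'] at a
      nlinarith [sq_nonneg (‖z‖ - 1)]
    · refine DifferentiableOn.diffContOnCl (DifferentiableOn.mono (hh.mul (by fun_prop)) ?_)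
      exact fun z hz => hS z (hcl (closure_mono inter_subset_left hz))
    rw [hn]
    rcases frontier_inter_subset _ _ hz with ⟨a, -⟩ | ⟨a, b⟩
    · have a : 2 * |z.im| = z.re := frontier_lt_subset_eq c1 continuous_re a
      have a1 := hray z a
      rw [hgh z (hS z a.le), norm_mul, Real.exp_add] at a1
      have a2 := mul_le_mul_of_nonneg_right (lower_ray (hM z a)) (norm_nonneg (h z))
      have a3 : ‖h z‖ ≤ 200 * δ * Real.exp (l * (z ^ 2).re) :=
        le_of_mul_le_mul_left (by linarith) (Real.exp_pos (max 0 (γ * z ^ 2).re))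
      have a4 : 0 ≤ (z ^ 3).re := le_trans (by rw [← a]; positivity) (cube_re a.le)
      refine (mul_le_mul_of_nonneg_right a3 (Real.exp_pos _).le).trans ?_
      rw [mul_assoc, ← Real.exp_add]
      refine mul_le_of_le_one_right (by positivity) (Real.exp_le_one_iff.2 ?_)
      nlinarith
    · have a : 2 * |z.im| ≤ z.re := hcl a
      have b : γ * z ^ 2 ∈ frontier R := c2.frontier_preimage_subset R b
      have b1 := (half_le_frontier N (by exact_mod_cast hN3) _ b).1
      have b2 : (N : ℝ) ≤ ‖γ * z ^ 2‖ := le_of_not_gt fun hlt =>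
        (hRo.inter_frontier_eq ▸ (⟨hin _ hlt, b⟩ : _ ∈ R ∩ frontier R) : γ * z ^ 2 ∈ (∅ : Set ℂ))
      have x0 : 0 ≤ z.re := le_trans (by positivity) a
      have b3 : B ≤ z.re := by
        rw [norm_mul, norm_pow] at b2
        have t1 := le_of_sq_le_sq (lt_of_mul_lt_mul_left (hN2.trans_le b2) hγ'.le).le
          (norm_nonneg z)
        linarith [Complex.norm_le_abs_re_add_abs_im z, abs_of_nonneg x0, abs_nonneg z.im]
      have s0 : 0 ≤ (z ^ 2).re ∧ (z ^ 2).re ≤ z.re ^ 2 := by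
        have e : (z ^ 2).re = z.re ^ 2 - |z.im| ^ 2 := by
          simp [pow_succ]
        rw [e]
        constructor <;> nlinarith [abs_nonneg z.im]
      have a1 := hall z a
      rw [hgh z (hS z a), norm_mul] at a1
      have a2 := mul_le_mul_of_nonneg_right b1 (norm_nonneg (h z))
      have a3 : ‖h z‖ ≤ 200 * δ * Real.exp (A * (z ^ 2).re) := by
        have := mul_nonneg hδ (Real.exp_pos (A * (z ^ 2).re)).le
        linarith
      refine (mul_le_mul_of_nonneg_right a3 (Real.exp_pos _).le).trans ?_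
      rw [mul_assoc, ← Real.exp_add]
      refine mul_le_of_le_one_right (by positivity) (Real.exp_le_one_iff.2 ?_)
      rw [hB, div_le_iff₀ hη] at b3
      have t1 := mul_le_mul_of_nonneg_left (cube_re a) hη.le
      have t2 := mul_le_mul (le_abs_self A) s0.2 s0.1 (abs_nonneg A)
      have t3 := mul_le_mul (neg_le_abs l) s0.2 s0.1 (abs_nonneg l)
      have t4 := mul_le_mul_of_nonneg_right b3 (sq_nonneg z.re)
      nlinarith
  have lim : ‖h μ‖ * Real.exp (-(l * (μ ^ 2).re) - 0 * (μ ^ 3).re) ≤ 200 * δ := by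
    have c : Continuous fun η : ℝ => ‖h μ‖ * Real.exp (-(l * (μ ^ 2).re) - η * (μ ^ 3).re) := by
      fun_prop
    exact le_of_tendsto ((c.tendsto 0).mono_left (nhdsWithin_le_nhds (s := Ioi 0)))
      (eventually_mem_nhdsWithin.mono key)
  rw [zero_mul, sub_zero, Real.exp_neg, ← div_eq_mul_inv, div_le_iff₀ (Real.exp_pos _)] at lim
  rw [hgh μ (hS μ hμ), norm_mul, Real.exp_add]
  exact (mul_le_mul (upper_all _) lim (norm_nonneg _) (by positivity)).trans_eq (by ring)

open MeasureTheory ProbabilityTheory in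
theorem exists_Phi : ∃ Φ : ℂ → ℂ, Differentiable ℂ Φ ∧ (∀ z : ℂ, z.re ≤ 0 → ‖Φ z‖ ≤ 1) ∧
    (∀ z : ℂ, ‖Φ z‖ ≤ max 1 (Real.exp (z ^ 2).re)) ∧ ∀ C : ℝ, ∃ x : ℝ, 0 ≤ x ∧ C < ‖Φ x‖ := by
  set ν := gaussianReal 0 1 with hν
  have hb : ∀ (z : ℂ) (s : Set ℝ), MeasurableSet s → (∀ t ∈ s, z.re * t ≤ 0) →
      ‖∫ t in s, exp (z * t) ∂ν‖ ≤ 1 := fun z s hs h => by
    refine (norm_setIntegral_le_of_norm_le_const (C := 1) (measure_lt_top _ _)
      fun t ht => ?_).trans (by simp)
    rw [Complex.norm_exp, Real.exp_le_one_iff]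
    simpa using h t ht
  have he : ∀ z : ℂ, ∫ t in Ioi (0 : ℝ), exp (z * t) ∂ν =
      exp (z ^ 2 / 2) - ∫ t in (Ioi (0 : ℝ))ᶜ, exp (z * t) ∂ν := fun z => by
    have a := complexMGF_id_gaussianReal (μ := 0) (v := 1) z
    have b := integral_add_compl (measurableSet_Ioi (a := (0 : ℝ)))
      (integrable_cexp_mul_of_re_mem_integrableExpSet (X := id) (μ := ν) (z := z) aemeasurable_id
        (by simp [hν]))
    simp only [complexMGF, id] at a b
    rw [eq_sub_iff_add_eq, b, a]
    simp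
  have hc : ∀ z : ℂ, 0 ≤ z.re → ‖∫ t in (Ioi (0 : ℝ))ᶜ, exp (z * t) ∂ν‖ ≤ 1 := fun z hz =>
    hb z _ measurableSet_Ioi.compl fun t ht => mul_nonpos_of_nonneg_of_nonpos hz (not_lt.1 ht)
  have hl : ∀ z : ℂ, z.re ≤ 0 → ‖(∫ t in Ioi (0 : ℝ), exp (z * t) ∂ν) / 2‖ ≤ 1 := fun z hz => by
    have := hb z _ measurableSet_Ioi fun t ht => mul_nonpos_of_nonpos_of_nonneg hz (le_of_lt ht)
    rw [norm_div, Complex.norm_ofNat]
    linarith
  refine ⟨fun z => (∫ t in Ioi (0 : ℝ), exp (z * t) ∂ν) / 2, ?_, hl, fun z => ?_, fun C => ?_⟩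
  · have a := differentiableOn_complexMGF (X := id) (μ := ν.restrict (Ioi 0))
    have b : integrableExpSet id (ν.restrict (Ioi 0)) = univ :=
      eq_univ_of_forall fun t => (integrable_exp_mul_gaussianReal t).restrict
    rw [b, interior_univ] at a
    have c : Differentiable ℂ (complexMGF id (ν.restrict (Ioi 0))) :=
      differentiableOn_univ.1 (by simpa using a)
    exact c.div_const 2
  · rcases le_total z.re 0 with h | h
    · exact (hl z h).trans (le_max_left _ _)
    have a := norm_sub_le (exp (z ^ 2 / 2)) (∫ t in (Ioi (0 : ℝ))ᶜ, exp (z * t) ∂ν)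
    have b : ‖exp (z ^ 2 / 2)‖ ≤ max 1 (Real.exp (z ^ 2).re) := by
      rw [Complex.norm_exp, div_ofNat_re]
      rcases le_total (z ^ 2).re 0 with h | h
      · exact le_max_of_le_left (Real.exp_le_one_iff.2 (by linarith))
      · exact le_max_of_le_right (Real.exp_le_exp.2 (by linarith))
    simp only [he, norm_div, Complex.norm_ofNat]
    linarith [hc z h, le_max_left 1 (Real.exp (z ^ 2).re)]
  · refine ⟨4 * |C| + 2, by positivity, ?_⟩
    set x : ℝ := 4 * |C| + 2 with hx
    have a := norm_sub_norm_le (exp ((x : ℂ) ^ 2 / 2)) (∫ t in (Ioi (0 : ℝ))ᶜ, exp (x * t) ∂ν)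
    have b : ‖exp ((x : ℂ) ^ 2 / 2)‖ = Real.exp (x ^ 2 / 2) := by
      rw [Complex.norm_exp, div_ofNat_re, ← ofReal_pow, ofReal_re]
    have c := hc x (by rw [ofReal_re]; positivity)
    simp only [he, norm_div, Complex.norm_ofNat]
    nlinarith [Real.add_one_le_exp (x ^ 2 / 2), le_abs_self C, abs_nonneg C]

end Pool.Agent.Lib.MP_efa496_an.Sh
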