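import Mathlib

/-!
Modules of holomorphic vector functions on a domain, divisorial submodules, local rank and
over-saturation. The module is a space `E` with a map `ι` to functions; functions on `G` are
extended by zero.
-/

set_option autoImplicit false

namespace Pool.Agent.Lib.MP_efa496_an.Sh

open Filter Topology

variable {q : ℕ}

/-- `g` is holomorphic on `G` and vanishes outside `G`. -/
def Hol (G : Set ℂ) (g : ℂ → Fin q → ℂ) : Prop :=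
  DifferentiableOn ℂ g G ∧ ∀ w ∉ G, g w = 0

/-- The matrix of the rows `J` of the system `u` at `z`. -/
def minor {E : Type} {k : ℕ} (ι : E → ℂ → Fin q → ℂ) (u : Fin k → E) (J : Fin k → Fin q) (z : ℂ) :
    Matrix (Fin k) (Fin k) ℂ :=
  Matrix.of fun r s => ι (u s) z (J r)

/-- Uniform stability. -/
def UnifStab {E : Type} [Zero E] [TopologicalSpace E] (G : Set ℂ) (ι : E → ℂ → Fin q → ℂ) : Prop :=
  ∀ V ∈ 𝓝 (0 : E), ∃ U ∈ 𝓝 (0 : E), ∀ c : ℂ, ∀ x ∈ U, ∀ g : ℂ → Fin q → ℂ, Hol G g →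
    (∀ w ∈ G, ι x w = (w - c) • g w) → ∃ y ∈ V, ι y = g

variable {E : Type} [AddCommGroup E] [Module ℂ E]

/-- `I` is a divisorial polynomial submodule. -/
def Divis (G : Set ℂ) (ι : E → ℂ → Fin q → ℂ) (I : Submodule ℂ E) : Prop :=
  (∀ p : Polynomial ℂ, ∀ x ∈ I, ∃ y ∈ I, ∀ w, ι y w = p.eval w • ι x w) ∧
    ∀ f : E, (∀ c ∈ G, ∃ (n : ℕ) (u : Fin n → E) (h : Fin n → ℂ → ℂ), (∀ m, u m ∈ I) ∧
      (∀ m, AnalyticAt ℂ (h m) c) ∧ ∀ᶠ w in 𝓝 c, ι f w = ∑ m, h m w • ι (u m) w) → f ∈ I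

/-- `k` is the local rank of `I`. -/
def Rank (G : Set ℂ) (ι : E → ℂ → Fin q → ℂ) (I : Submodule ℂ E) (k : ℕ) : Prop :=
  IsGreatest {r | ∃ c ∈ G, ∃ (u : Fin r → E) (J : Fin r → Fin q), (∀ s, u s ∈ I) ∧
    StrictMono J ∧ ¬ ∀ᶠ w in 𝓝 c, (minor ι u J w).det = 0} k

variable [TopologicalSpace E]

/-- `ι` identifies `E` with a polynomial module of holomorphic functions on `G`; the topology is
Hausdorff and locally convex, and polynomials act continuously. -/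
def TopMod (G : Set ℂ) (ι : E → ℂ → Fin q → ℂ) : Prop :=
  Function.Injective ι ∧ IsLinearMap ℂ ι ∧ (∀ x, Hol G (ι x)) ∧ T2Space E ∧
    IsTopologicalAddGroup E ∧ ContinuousSMul ℂ E ∧ LocallyConvexSpace ℝ E ∧
    ∀ p : Polynomial ℂ, ∃ g : E → E, Continuous g ∧ ∀ x w, ι (g x) w = p.eval w • ι x w

/-- The holomorphic functions in `S` lie in the module and form a bounded set. -/
def InBdd (G : Set ℂ) (ι : E → ℂ → Fin q → ℂ) (S : Set (ℂ → Fin q → ℂ)) : Prop :=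
  (∀ g ∈ S, Hol G g → ∃ y, ι y = g) ∧ Bornology.IsVonNBounded ℂ {x | ι x ∈ S}

/-- Condition (3). -/
def CondThree (G : Set ℂ) (ι : E → ℂ → Fin q → ℂ) : Prop :=
  ∀ (n : ℕ) (F : Fin n → E), InBdd G ι {g | ∀ w ∈ G, ∀ i, ‖g w i‖ ≤ ∑ m, ‖ι (F m) w i‖}

/-- `I`, of local rank `k`, is saturated with respect to every element of the module. -/
def OverSat (G : Set ℂ) (ι : E → ℂ → Fin q → ℂ) (I : Submodule ℂ E) (k : ℕ) : Prop :=
  ∀ f : E, ∀ V ∈ 𝓝 (0 : E), ∀ Φ : ℂ → ℂ, DifferentiableOn ℂ Φ G →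
    (∀ z ∈ G, ∀ (u : Fin k → E) (J : Fin k → Fin q), (∀ s, u s ∈ V ∧ u s ∈ I) →
      StrictMono J → (minor ι u J z).det ≠ 0 →
      ‖Φ z‖ ≤ 1 + ∑ s, ‖((minor ι u J z).updateCol s fun r => ι f z (J r)).det /
        (minor ι u J z).det‖) →
    ∃ C : ℝ, ∀ z ∈ G, ‖Φ z‖ ≤ C

/-- The module is first countable and complete with continuous point evaluations, it satisfies
(3) for the maximum norm, and `I` is closed. -/
def Extra (G : Set ℂ) (ι : E → ℂ → Fin q → ℂ) (I : Submodule ℂ E) : Prop :=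
  FirstCountableTopology E ∧
    (∀ x : ℕ → E, Tendsto (fun m : ℕ × ℕ => x m.1 - x m.2) atTop (𝓝 0) →
      ∃ y, Tendsto x atTop (𝓝 y)) ∧
    (∀ z, Continuous fun x => ι x z) ∧
    (∀ (n : ℕ) (F : Fin n → E), InBdd G ι {g | ∀ w ∈ G, ‖g w‖ ≤ ∑ m, ‖ι (F m) w‖}) ∧
    IsClosed (I : Set E)

end Pool.Agent.Lib.MP_efa496_an.Sh
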