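import Mathlib

/-!
A chart of a half-plane inside an arbitrary domain, with a gauge function.
-/

set_option autoImplicit false

namespace Pool.Agent.Lib.MP_efa496_an.Sh

open Metric

/-- `w` inverts the map `σ` from a half-plane into `G`, and `t` measures the distance to the
boundary of `G` and to infinity. -/
structure Dom (G : Set ℂ) (w σ : ℂ → ℂ) (t : ℂ → ℝ) (K : ℝ) : Prop where
  K_pos : 0 < K
  w_diff : DifferentiableOn ℂ w G
  σ_diff : DifferentiableOn ℂ σ {ω | -(1 / 2) < ω.re}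
  σ_mem : ∀ ω : ℂ, -(1 / 2) < ω.re → σ ω ∈ G
  w_σ : ∀ ω : ℂ, -(1 / 2) < ω.re → w (σ ω) = ω
  σ_w : ∀ z ∈ G, σ (w z) = z
  t_σ : ∀ ω : ℂ, 0 ≤ ω.re → t (σ ω) ≤ K * (1 + ‖ω‖ ^ 2)
  one_le : ∀ z ∈ G, 1 ≤ t z
  norm_le : ∀ z ∈ G, ‖z‖ ≤ t z
  near : ∀ z ∈ G, ∀ y : ℂ, ‖y - z‖ ≤ 1 / (K * t z ^ 3) →
    y ∈ G ∧ t y ≤ t z + 1 ∧ ‖w y ^ 2 - w z ^ 2‖ ≤ 1

theorem dom_univ : Dom Set.univ id id (fun z => 1 + ‖z‖) 4 where
  K_pos := by norm_num
  w_diff := differentiableOn_id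
  σ_diff := differentiableOn_id
  σ_mem := fun _ _ => trivial
  w_σ := fun _ _ => rfl
  σ_w := fun _ _ => rfl
  t_σ := fun ω _ => by
    simp only [id]
    nlinarith [sq_nonneg (‖ω‖ - 1)]
  one_le := fun z _ => by linarith [norm_nonneg z]
  norm_le := fun z _ => by linarith
  near := fun z _ y h => by
    have n0 := norm_nonneg z
    have h1 : 1 + ‖z‖ ≤ (1 + ‖z‖) ^ 3 := le_self_pow₀ (by linarith) (by norm_num)
    have h2 : ‖y - z‖ * (4 * (1 + ‖z‖)) ≤ 1 := by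
      rw [le_div_iff₀ (by positivity)] at h
      nlinarith [norm_nonneg (y - z)]
    have h3 : ‖y - z‖ ≤ 1 := by nlinarith [norm_nonneg (y - z)]
    have h4 : ‖y‖ ≤ ‖z‖ + 1 := by linarith [norm_sub_norm_le y z]
    refine ⟨trivial, by linarith, ?_⟩
    simp only [id]
    rw [sq_sub_sq, norm_mul]
    nlinarith [norm_add_le y z, norm_nonneg (y - z)]

theorem dom_proper {G : Set ℂ} (hG : IsOpen G) (hne : G.Nonempty) (hu : G ≠ Set.univ) :
    ∃ w σ t K, Dom G w σ t K := by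
  obtain ⟨z₀, hz₀⟩ := hne
  have hc : Gᶜ.Nonempty := Set.nonempty_compl.2 hu
  have hcl : IsClosed Gᶜ := hG.isClosed_compl
  obtain ⟨b, hb, hd⟩ := hcl.exists_infDist_eq_dist hc z₀
  have dpos : ∀ z ∈ G, 0 < infDist z Gᶜ := fun z hz =>
    (hcl.notMem_iff_infDist_pos hc).1 fun h => h hz
  have dmem : ∀ z, 0 < infDist z Gᶜ → z ∈ G := fun z hz => by
    by_contra h
    rw [infDist_zero_of_mem h] at hz
    exact lt_irrefl _ hz
  have dle : ∀ z, infDist z Gᶜ ≤ ‖z - b‖ := fun z => by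
    rw [← dist_eq_norm]
    exact infDist_le_dist_of_mem hb
  have dlip : ∀ y z : ℂ, infDist z Gᶜ ≤ infDist y Gᶜ + ‖y - z‖ := fun y z => by
    rw [← dist_eq_norm, dist_comm]
    exact infDist_le_infDist_add_dist
  obtain ⟨κ, hκ⟩ : ∃ κ, κ = z₀ - b := ⟨_, rfl⟩
  obtain ⟨R, hR⟩ : ∃ R, R = ‖κ‖ := ⟨_, rfl⟩
  have hd' : infDist z₀ Gᶜ = R := by rw [hd, dist_eq_norm, hR, hκ]
  have R0 : 0 < R := hd' ▸ dpos z₀ hz₀
  have k0 : κ ≠ 0 := norm_pos_iff.1 (hR ▸ R0)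
  have nb : ∀ z ∈ G, z - b ≠ 0 := fun z hz h => hb (sub_eq_zero.1 h ▸ hz)
  have n1 : ∀ ω : ℂ, -(1 / 2) < ω.re → ω + 1 ≠ 0 := fun ω h e => by
    have := congrArg Complex.re e
    simp only [Complex.add_re, Complex.one_re, Complex.zero_re] at this
    linarith
  have sq1 : ∀ ω : ℂ, ‖ω + 1‖ ^ 2 = ‖ω‖ ^ 2 + 2 * ω.re + 1 := fun ω => by
    rw [Complex.sq_norm, Complex.sq_norm, Complex.normSq_apply, Complex.normSq_apply]
    simp only [Complex.add_re, Complex.add_im, Complex.one_re, Complex.one_im]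
    ring
  have low : ∀ ω : ℂ, -(1 / 2) < ω.re →
      R * (‖ω + 1‖ - ‖ω‖) ≤ infDist (b + κ / (ω + 1)) Gᶜ * ‖ω + 1‖ := fun ω h => by
    have p1 : 0 < ‖ω + 1‖ := norm_pos_iff.2 (n1 ω h)
    have h1 := dlip (b + κ / (ω + 1)) z₀
    have e : b + κ / (ω + 1) - z₀ = -(κ * ω) / (ω + 1) := by
      have := n1 ω h
      rw [show z₀ = b + κ by rw [hκ]; ring]
      field_simp
      ring
    rw [e, hd', norm_div, norm_neg, norm_mul, ← hR] at h1
    have h2 := mul_le_mul_of_nonneg_right h1 p1.le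
    rw [add_mul, div_mul_cancel₀ _ p1.ne'] at h2
    linarith
  have b0 := norm_nonneg b
  refine ⟨fun z => κ / (z - b) - 1, fun ω => b + κ / (ω + 1),
    fun z => 1 + ‖z‖ + 1 / infDist z Gᶜ, 4 + 2 * R * (3 * R + 2) + ‖b‖ + R + 4 / R,
    by positivity, ?_, ?_, fun ω h => ?_, fun ω h => ?_, fun z hz => ?_, fun ω h => ?_,
    fun z hz => ?_, fun z hz => ?_, fun z hz y hy => ?_⟩
  · exact ((differentiableOn_const _).div (by fun_prop) nb).sub_const _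
  · exact ((differentiableOn_const _).div (by fun_prop) n1).const_add _
  · refine dmem _ ((mul_pos_iff_of_pos_right (norm_pos_iff.2 (n1 ω h))).1 ?_)
    refine lt_of_lt_of_le (mul_pos R0 (sub_pos.2 ?_)) (low ω h)
    refine lt_of_pow_lt_pow_left₀ 2 (norm_nonneg _) ?_
    rw [sq1]
    linarith
  · have := n1 ω h
    simp only [add_sub_cancel_left]
    field_simp
    ring
  · have := nb z hz
    simp only [sub_add_cancel]
    field_simp
    ring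
  · have h' : -(1 / 2) < ω.re := by linarith
    have m0 := norm_nonneg ω
    have p1 : 1 ≤ ‖ω + 1‖ := by
      refine le_of_sq_le_sq ?_ (norm_nonneg _)
      rw [sq1]
      nlinarith
    have p2 : ‖ω + 1‖ ≤ ‖ω‖ + 1 := by simpa using norm_add_le ω 1
    have a1 : ‖b + κ / (ω + 1)‖ ≤ ‖b‖ + R := by
      refine (norm_add_le _ _).trans (add_le_add le_rfl ?_)
      rw [norm_div, ← hR]
      exact div_le_self R0.le p1
    have a2 : 1 ≤ (‖ω + 1‖ - ‖ω‖) * (‖ω + 1‖ + ‖ω‖) := by nlinarith [sq1 ω]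
    have a3 := low ω h'
    obtain ⟨d, hdd⟩ : ∃ d, d = infDist (b + κ / (ω + 1)) Gᶜ := ⟨_, rfl⟩
    have d0 : 0 ≤ d := hdd ▸ infDist_nonneg
    rw [← hdd] at a3 ⊢
    have a4 : R ≤ d * (‖ω + 1‖ * (‖ω + 1‖ + ‖ω‖)) := by
      have := mul_le_mul_of_nonneg_right a3 (by positivity : 0 ≤ ‖ω + 1‖ + ‖ω‖)
      nlinarith
    have a5 : ‖ω + 1‖ * (‖ω + 1‖ + ‖ω‖) ≤ 4 * (1 + ‖ω‖ ^ 2) := by
      have : ‖ω + 1‖ * (‖ω + 1‖ + ‖ω‖) ≤ (‖ω‖ + 1) * (‖ω‖ + 1 + ‖ω‖) := by gcongr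
      nlinarith [sq_nonneg (‖ω‖ - 1)]
    have a6 : R ≤ d * (4 * (1 + ‖ω‖ ^ 2)) := a4.trans (mul_le_mul_of_nonneg_left a5 d0)
    have d1 : 0 < d := by
      by_contra hh
      rw [le_antisymm (not_lt.1 hh) d0, zero_mul] at a6
      linarith
    have a7 : 1 / d ≤ 4 / R * (1 + ‖ω‖ ^ 2) := by
      rw [div_mul_eq_mul_div, div_le_div_iff₀ d1 R0]
      linarith
    have a8 : 0 ≤ (4 + 2 * R * (3 * R + 2) + ‖b‖ + R) * ‖ω‖ ^ 2 := by positivity
    have a9 : 0 ≤ 2 * R * (3 * R + 2) := by positivity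
    nlinarith
  · have := one_div_pos.2 (dpos z hz)
    linarith [norm_nonneg z]
  · have := one_div_pos.2 (dpos z hz)
    linarith
  obtain ⟨d, hdd⟩ : ∃ d, d = infDist z Gᶜ := ⟨_, rfl⟩
  obtain ⟨e, he⟩ : ∃ e, e = infDist y Gᶜ := ⟨_, rfl⟩
  obtain ⟨ρ, hρ⟩ : ∃ ρ, ρ = ‖y - z‖ := ⟨_, rfl⟩
  have l1 := dlip y z
  have l2 := dle z
  have l3 := dle y
  have l4 := norm_sub_norm_le y z
  have d0 : 0 < d := hdd ▸ dpos z hz
  simp only [← hdd, ← he, ← hρ] at hy l1 l2 l3 l4 ⊢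
  obtain ⟨T, hT⟩ : ∃ T, T = 1 + ‖z‖ + 1 / d := ⟨_, rfl⟩
  rw [← hT] at hy ⊢
  have i0 := one_div_pos.2 d0
  have z0 := norm_nonneg z
  have r0 : 0 ≤ ρ := hρ ▸ norm_nonneg _
  have T1 : 1 ≤ T := by linarith
  have T2 : 1 ≤ d * T := by
    have : 1 / d ≤ T := by linarith
    rwa [div_le_iff₀ d0, mul_comm] at this
  rw [le_div_iff₀ (by positivity)] at hy
  have q0 : 0 ≤ ρ * T ^ 3 := by positivity
  have u0 : 0 < 4 / R := by positivity
  have u1 : 0 ≤ 2 * R * (3 * R + 2) := by positivity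
  have q1 : 4 * (ρ * T ^ 3) ≤ 1 := by nlinarith
  have q2 : 2 * R * (3 * R + 2) * (ρ * T ^ 3) ≤ 1 := by nlinarith
  have q3 : ρ * T ^ 2 ≤ ρ * T ^ 3 :=
    mul_le_mul_of_nonneg_left (pow_le_pow_right₀ T1 (by norm_num)) r0
  have q4 : ρ * T ≤ ρ * T ^ 3 := mul_le_mul_of_nonneg_left (le_self_pow₀ T1 (by norm_num)) r0
  have q5 : ρ ≤ ρ * T := le_mul_of_one_le_right r0 T1
  have q6 : 4 * ρ ≤ d := by nlinarith
  have e1 : 3 / 4 * d ≤ e := by linarith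
  have e0 : 0 < e := by linarith
  have yG : y ∈ G := dmem y (he ▸ e0)
  have e2 : 1 / e ≤ 4 / 3 * T := by
    rw [div_le_iff₀ e0]
    nlinarith
  have e3 : 1 / d ≤ T := by linarith
  refine ⟨yG, ?_, ?_⟩
  · have a1 : 1 / e - 1 / d = (d - e) * (1 / d * (1 / e)) := by field_simp
    have a2 : (d - e) * (1 / d * (1 / e)) ≤ ρ * (T * (4 / 3 * T)) :=
      mul_le_mul (by linarith) (by gcongr) (by positivity) r0
    nlinarith
  have w1 : ‖κ / (z - b)‖ ≤ R * T := by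
    rw [norm_div, ← hR, div_eq_mul_one_div]
    exact mul_le_mul_of_nonneg_left ((one_div_le_one_div_of_le d0 l2).trans e3) R0.le
  have w2 : ‖κ / (y - b)‖ ≤ R * (4 / 3 * T) := by
    rw [norm_div, ← hR, div_eq_mul_one_div]
    exact mul_le_mul_of_nonneg_left ((one_div_le_one_div_of_le e0 l3).trans e2) R0.le
  have w3 : ‖κ / (y - b) - 1 + (κ / (z - b) - 1)‖ ≤ (3 * R + 2) * T := by
    have a1 := norm_add_le (κ / (y - b) - 1) (κ / (z - b) - 1)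
    have a2 := norm_sub_le (κ / (y - b)) 1
    have a3 := norm_sub_le (κ / (z - b)) 1
    rw [norm_one] at a2 a3
    nlinarith [mul_pos R0 (zero_lt_one.trans_le T1)]
  have w4 : ‖κ / (y - b) - 1 - (κ / (z - b) - 1)‖ ≤ R * T * (ρ * (4 / 3 * T)) := by
    have e : κ / (y - b) - 1 - (κ / (z - b) - 1) = -(κ / (z - b) * ((y - z) * (1 / (y - b)))) := by
      have := nb z hz
      have := nb y yG
      field_simp
      ring
    rw [e, norm_neg, norm_mul, norm_mul, ← hρ, norm_div 1, norm_one]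
    exact mul_le_mul w1 (mul_le_mul_of_nonneg_left ((one_div_le_one_div_of_le e0 l3).trans e2) r0)
      (by positivity) (by positivity)
  rw [sq_sub_sq, norm_mul]
  refine (mul_le_mul w3 w4 (norm_nonneg _) (by positivity)).trans ?_
  nlinarith [mul_nonneg u1 q0]

theorem exists_dom {G : Set ℂ} (hG : IsOpen G) (hne : G.Nonempty) : ∃ w σ t K, Dom G w σ t K := by
  by_cases hu : G = Set.univ
  · exact hu ▸ ⟨_, _, _, _, dom_univ⟩
  · exact dom_proper hG hne hu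

end Pool.Agent.Lib.MP_efa496_an.Sh
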