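import Pool.Agent.Lib.MP_efa496_an.Sh.Defs

/-!
Local rank at most one: every divisorial submodule is over-saturated.
-/

set_option autoImplicit false

namespace Pool.Agent.Lib.MP_efa496_an.Sh

open Filter Topology

variable {q : ℕ} {E : Type} [AddCommGroup E] [Module ℂ E] [TopologicalSpace E]

theorem overSat_zero {G : Set ℂ} (ι : E → ℂ → Fin q → ℂ) (I : Submodule ℂ E) :
    OverSat G ι I 0 := by
  intro f V _ Φ _ h
  refine ⟨1, fun z hz => ?_⟩
  have := h z hz Fin.elim0 Fin.elim0 (fun s => s.elim0) (fun s => s.elim0) (by simp)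
  simpa using this

theorem overSat_one {G : Set ℂ} (hG : IsOpen G) (hc : IsConnected G) {ι : E → ℂ → Fin q → ℂ}
    (hT : TopMod G ι) (h3 : CondThree G ι) {I : Submodule ℂ E} (hI : Divis G ι I)
    (hR : Rank G ι I 1) : OverSat G ι I 1 := by
  classical
  intro f V hV Φ hΦ h
  obtain ⟨c, hcG, u, J, hu, -, hne⟩ := hR.1
  obtain ⟨hin, hbd⟩ := h3 3 ![u 0, f, f]
  obtain ⟨r, hr⟩ := absorbs_iff_norm.1 (hbd hV)
  set R : ℝ := max r 2 with hRdef
  have hR2 : (2 : ℝ) ≤ R := le_max_right _ _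
  have hRn : ‖(R : ℂ)‖ = R := by rw [Complex.norm_real, Real.norm_of_nonneg (by linarith)]
  have hR0 : (R : ℂ) ≠ 0 := by exact_mod_cast (by linarith : R ≠ 0)
  have hV' : ∀ x : E, (∀ w ∈ G, ∀ i, ‖ι x w i‖ ≤ ‖ι (u 0) w i‖ + 2 * ‖ι f w i‖) →
      (R : ℂ)⁻¹ • x ∈ V := fun x hx => by
    obtain ⟨y, hy, e⟩ := hr R (by rw [hRn]; exact le_max_left _ _) (a := x) fun w hw i => by
      simp only [Fin.sum_univ_three, Matrix.cons_val_zero, Matrix.cons_val_one, Matrix.cons_val]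
      linarith [hx w hw i]
    rwa [← e, smul_smul, inv_mul_cancel₀ hR0, one_smul]
  have sm : ∀ (x : E) w i, ‖ι ((R : ℂ)⁻¹ • x) w i‖ = ‖ι x w i‖ / R := fun x w i => by
    rw [hT.2.1.map_smul]
    simp only [Pi.smul_apply, smul_eq_mul, norm_mul, norm_inv, hRn]
    ring
  have key : ∀ x : E, x ∈ V → x ∈ I → ∀ w ∈ G, ∀ i,
      ‖Φ w‖ * ‖ι x w i‖ ≤ ‖ι x w i‖ + ‖ι f w i‖ := fun x hx hxI w hw i => by
    by_cases h0 : ι x w i = 0
    · simp [h0]
    have h1 := h w hw (fun _ => x) (fun _ => i) (fun _ => ⟨hx, hxI⟩)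
      (fun a b hab => absurd hab (by rw [Subsingleton.elim a b]; exact lt_irrefl _))
      (by simpa [minor] using h0)
    simp only [minor, Fin.sum_univ_one, Matrix.det_unique, Matrix.of_apply, Fin.default_eq_zero,
      Matrix.updateCol_self, norm_div] at h1
    have h2 : 0 < ‖ι x w i‖ := norm_pos_iff.2 h0
    have h4 := mul_le_mul_of_nonneg_right h1 h2.le
    rwa [add_mul, one_mul, div_mul_cancel₀ _ h2.ne'] at h4
  have ind : ∀ n : ℕ, ∃ x : E, x ∈ V ∧ x ∈ I ∧ ∀ w ∈ G, ∀ i,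
      ‖ι x w i‖ = (‖Φ w‖ / R) ^ n * (‖ι (u 0) w i‖ / R) ∧
        ‖ι x w i‖ ≤ ‖ι (u 0) w i‖ + ‖ι f w i‖ := by
    intro n
    induction n with
    | zero =>
      refine ⟨(R : ℂ)⁻¹ • u 0, hV' _ fun w _ i => le_add_of_nonneg_right (by positivity),
        I.smul_mem _ (hu 0), fun w _ i => ?_⟩
      rw [sm]
      refine ⟨by ring, ?_⟩
      linarith [div_le_self (norm_nonneg (ι (u 0) w i)) (by linarith : 1 ≤ R),
        norm_nonneg (ι f w i)]
    | succ n ih =>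
      obtain ⟨x, hxV, hxI, hx⟩ := ih
      have hb : ∀ w ∈ G, ∀ i, ‖(Φ w • ι x w) i‖ ≤ ‖ι (u 0) w i‖ + 2 * ‖ι f w i‖ :=
        fun w hw i => by
          simp only [Pi.smul_apply, smul_eq_mul, norm_mul]
          linarith [key x hxV hxI w hw i, (hx w hw i).2]
      obtain ⟨y, hy⟩ := hin (fun w => Φ w • ι x w) (fun w hw i => by
        simp only [Fin.sum_univ_three, Matrix.cons_val_zero, Matrix.cons_val_one, Matrix.cons_val]
        linarith [hb w hw i]) ⟨hΦ.smul (hT.2.2.1 x).1, fun w hw => by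
          simp only [(hT.2.2.1 x).2 w hw, smul_zero]⟩
      have hI' : y ∈ I := hI.2 y fun c hc =>
        ⟨1, fun _ => x, fun _ => Φ, fun _ => hxI, fun _ => hΦ.analyticAt (hG.mem_nhds hc),
          Eventually.of_forall fun w => by simp [hy]⟩
      refine ⟨(R : ℂ)⁻¹ • y, hV' _ (by rw [hy]; exact hb), I.smul_mem _ hI', fun w hw i => ?_⟩
      rw [sm, hy]
      refine ⟨?_, ?_⟩
      · simp only [Pi.smul_apply, smul_eq_mul, norm_mul]
        rw [(hx w hw i).1]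
        ring
      · rw [div_le_iff₀ (by linarith)]
        nlinarith [hb w hw i, norm_nonneg (ι (u 0) w i), norm_nonneg (ι f w i)]
  have hpt : ∀ w ∈ G, ι (u 0) w (J 0) ≠ 0 → ‖Φ w‖ ≤ R := fun w hw h0 => by
    by_contra hlt
    push Not at hlt
    have h1 : 1 < ‖Φ w‖ / R := (one_lt_div (by linarith)).2 hlt
    have h2 : 0 < ‖ι (u 0) w (J 0)‖ / R := div_pos (norm_pos_iff.2 h0) (by linarith)
    obtain ⟨n, hn⟩ := pow_unbounded_of_one_lt
      ((‖ι (u 0) w (J 0)‖ + ‖ι f w (J 0)‖) / (‖ι (u 0) w (J 0)‖ / R)) h1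
    obtain ⟨x, -, -, hx⟩ := ind n
    rw [div_lt_iff₀ h2] at hn
    linarith [(hx w hw (J 0)).1, (hx w hw (J 0)).2]
  have han : AnalyticOnNhd ℂ (fun w => ι (u 0) w (J 0)) G :=
    ((differentiableOn_pi.1 (hT.2.2.1 _).1) (J 0)).analyticOnNhd hG
  refine ⟨R, fun z hz => ?_⟩
  have hfr : ∃ᶠ w in 𝓝 z, ‖Φ w‖ ≤ R := by
    by_contra hn
    rw [Filter.not_frequently] at hn
    refine hne ?_
    have h0 : (fun w => ι (u 0) w (J 0)) =ᶠ[𝓝 z] 0 := by
      filter_upwards [hn, hG.mem_nhds hz] with w h1 h2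
      by_contra h3
      exact h1 (hpt w h2 h3)
    have h1 := han.eqOn_zero_of_preconnected_of_eventuallyEq_zero hc.isPreconnected hz h0
    filter_upwards [hG.mem_nhds hcG] with w hw
    simpa [minor] using h1 hw
  exact isClosed_Iic.mem_of_frequently_of_tendsto hfr
    (hΦ.continuousOn.continuousAt (hG.mem_nhds hz)).norm

end Pool.Agent.Lib.MP_efa496_an.Sh
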