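import Pool.Agent.Lib.MP_efa496_an.Sh.Sp
import Pool.Agent.Lib.MP_efa496_an.Sh.Dom
import Pool.Agent.Lib.MP_efa496_an.Sh.Decay

/-!
In every domain and every local rank at least two: a divisorial submodule that is not
over-saturated.
-/

set_option autoImplicit false

namespace Pool.Agent.Lib.MP_efa496_an.Sh

open Complex Filter Topology Set

/-- The supporting function of a quadrilateral. -/
noncomputable def hh (s : ℂ) : ℝ :=
  max (max 0 (214 * s.re - 11 * s.im)) (max (216 * s.re + s.im) (212 * s.re + 25 * s.im))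

theorem le_hh (s : ℂ) : 0 ≤ hh s ∧ 214 * s.re - 11 * s.im ≤ hh s ∧ 216 * s.re + s.im ≤ hh s ∧
    212 * s.re + 25 * s.im ≤ hh s :=
  ⟨le_max_of_le_left (le_max_left _ _), le_max_of_le_left (le_max_right _ _),
    le_max_of_le_right (le_max_left _ _), le_max_of_le_right (le_max_right _ _)⟩

theorem hh_lip (a b : ℂ) : hh a ≤ hh b + 241 * ‖a - b‖ := by
  obtain ⟨h0, h1, h2, h3⟩ := le_hh b
  have a1 := abs_le.1 (abs_re_le_norm (a - b))
  have a2 := abs_le.1 (abs_im_le_norm (a - b))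
  rw [sub_re] at a1
  rw [sub_im] at a2
  have := norm_nonneg (a - b)
  refine max_le (max_le ?_ ?_) (max_le ?_ ?_) <;> linarith [a1.1, a1.2, a2.1, a2.2]

theorem hh_le (s : ℂ) : hh s ≤ 241 * ‖s‖ := by
  simpa [hh] using hh_lip s 0

theorem row {G : Set ℂ} {w σ : ℂ → ℂ} {t : ℂ → ℝ} {K : ℝ} (D : Dom G w σ t K) {c C : ℂ}
    (hc : c ≠ 0) (hC : C ≠ 0)
    (h1 : ∀ ω : ℂ, 2 * |(c * ω).im| ≤ (c * ω).re →
      0 ≤ ω.re ∧ ‖ω‖ ^ 2 ≤ 5 / 87 * ((c * ω) ^ 2).re)
    (h2 : ∀ ω : ℂ, 2 * |(c * ω).im| = (c * ω).re →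
      |(C * ω ^ 2).im| ≤ 100 * |(C * ω ^ 2).re| ∧ hh (ω ^ 2) ≤ max 0 (C * ω ^ 2).re)
    {v : ℂ → ℂ} (hv : DifferentiableOn ℂ v G) (hz : ∀ z ∈ G, 1 + exp (C * w z ^ 2) = 0 → v z = 0)
    {n : ℕ} (hn : 3 * K ≤ n + 1) {δ : ℝ} (hδ : 0 ≤ δ)
    (hb : ∀ z ∈ G, ‖v z‖ ≤ δ * W (fun z => hh (w z ^ 2)) t n z) {z : ℂ} (hzG : z ∈ G)
    (hs : 2 * |(c * w z).im| ≤ (c * w z).re) :
    ‖v z‖ ≤ 400 * (δ * Real.exp 1) *
      Real.exp (max 0 (C * w z ^ 2).re + 1 / 42 * ((c * w z) ^ 2).re) := by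
  have e1 : ∀ μ : ℂ, c * (μ / c) = μ := fun μ => mul_div_cancel₀ μ hc
  have e2 : ∀ μ : ℂ, C / c ^ 2 * μ ^ 2 = C * (μ / c) ^ 2 := fun μ => by field_simp
  have bd : ∀ μ : ℂ, 2 * |μ.im| ≤ μ.re → ‖v (σ (μ / c))‖ ≤
      δ * Real.exp 1 * Real.exp (hh ((μ / c) ^ 2) + 1 / 42 * (μ ^ 2).re) := fun μ hμ => by
    obtain ⟨a1, a2⟩ := h1 (μ / c) (by rwa [e1])
    rw [e1] at a2
    have a3 : -(1 / 2) < (μ / c).re := by linarith
    refine (hb _ (D.σ_mem _ a3)).trans ?_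
    rw [mul_assoc, ← Real.exp_add, W, D.w_σ _ a3]
    refine mul_le_mul_of_nonneg_left (Real.exp_le_exp.2 ?_) hδ
    have a4 : t (σ (μ / c)) / (n + 1) ≤ (1 + ‖μ / c‖ ^ 2) / 3 := by
      rw [div_le_div_iff₀ (by positivity) (by norm_num)]
      nlinarith [D.t_σ _ a1, mul_le_mul_of_nonneg_right hn
        (by positivity : 0 ≤ 1 + ‖μ / c‖ ^ 2)]
    nlinarith [sq_nonneg ‖μ / c‖]
  have key := decay (O := {μ | -(1 / 2) < (μ / c).re}) (isOpen_lt continuous_const (by fun_prop))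
    (fun μ hμ => lt_of_lt_of_le (by norm_num) (h1 (μ / c) (by rwa [e1])).1)
    (g := fun μ => v (σ (μ / c)))
    (hv.comp (D.σ_diff.comp (by fun_prop) fun μ hμ => hμ) fun μ hμ => D.σ_mem _ hμ)
    (γ := C / c ^ 2) (div_ne_zero hC (pow_ne_zero 2 hc))
    (fun μ hμ h0 => hz _ (D.σ_mem _ hμ) (by rwa [D.w_σ _ hμ, ← e2]))
    (δ := δ * Real.exp 1) (A := 15) (l := 1 / 42) (by positivity)
    (fun μ hμ => by rw [e2]; exact (h2 (μ / c) (by rwa [e1])).1)
    (fun μ hμ => (bd μ hμ).trans (mul_le_mul_of_nonneg_left (Real.exp_le_exp.2 (by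
      have a2 := (h1 (μ / c) (by rwa [e1])).2
      have a3 := hh_le ((μ / c) ^ 2)
      rw [e1] at a2
      rw [norm_pow] at a3
      nlinarith [sq_nonneg ‖μ / c‖])) (by positivity)))
    (fun μ hμ => (bd μ hμ.le).trans (mul_le_mul_of_nonneg_left (Real.exp_le_exp.2 (by
      rw [e2]
      linarith [(h2 (μ / c) (by rwa [e1])).2])) (by positivity))) (c * w z) hs
  rwa [e2, mul_div_cancel_left₀ _ hc, D.σ_w z hzG] at key

theorem sec0 (ω : ℂ) (h : 2 * |((5 - 2 * I) * ω).im| ≤ ((5 - 2 * I) * ω).re) :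
    0 ≤ ω.re ∧ ‖ω‖ ^ 2 ≤ 5 / 87 * (((5 - 2 * I) * ω) ^ 2).re := by
  have a1 := le_abs_self ((5 - 2 * I) * ω).im
  have a2 := neg_abs_le ((5 - 2 * I) * ω).im
  have e1 : ((5 - 2 * I) * ω).re = 5 * ω.re + 2 * ω.im := by simp
  have e2 : ((5 - 2 * I) * ω).im = 5 * ω.im - 2 * ω.re := by simp; ring
  have b1 : 0 ≤ 9 * ω.re - 8 * ω.im := by linarith
  have b2 : 0 ≤ ω.re + 12 * ω.im := by linarith
  rw [Complex.sq_norm, normSq_apply, sq, mul_re, e1, e2]
  exact ⟨by linarith, by nlinarith [mul_nonneg b1 b2]⟩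

theorem sec1 (ω : ℂ) (h : 2 * |((5 + 2 * I) * ω).im| ≤ ((5 + 2 * I) * ω).re) :
    0 ≤ ω.re ∧ ‖ω‖ ^ 2 ≤ 5 / 87 * (((5 + 2 * I) * ω) ^ 2).re := by
  have a1 := le_abs_self ((5 + 2 * I) * ω).im
  have a2 := neg_abs_le ((5 + 2 * I) * ω).im
  have e1 : ((5 + 2 * I) * ω).re = 5 * ω.re - 2 * ω.im := by simp
  have e2 : ((5 + 2 * I) * ω).im = 5 * ω.im + 2 * ω.re := by simp
  have b1 : 0 ≤ 9 * ω.re + 8 * ω.im := by linarith
  have b2 : 0 ≤ ω.re - 12 * ω.im := by linarith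
  rw [Complex.sq_norm, normSq_apply, sq, mul_re, e1, e2]
  exact ⟨by linarith, by nlinarith [mul_nonneg b1 b2]⟩

theorem ray0 (ω : ℂ) (h : 2 * |((5 - 2 * I) * ω).im| = ((5 - 2 * I) * ω).re) :
    |((214 + 11 * I) * ω ^ 2).im| ≤ 100 * |((214 + 11 * I) * ω ^ 2).re| ∧
      hh (ω ^ 2) ≤ max 0 ((214 + 11 * I) * ω ^ 2).re := by
  have e1 : ((5 - 2 * I) * ω).re = 5 * ω.re + 2 * ω.im := by simp
  have e2 : ((5 - 2 * I) * ω).im = 5 * ω.im - 2 * ω.re := by simp; ring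
  have e3 : ((214 + 11 * I) * ω ^ 2).re = 214 * (ω ^ 2).re - 11 * (ω ^ 2).im := by simp
  have e4 : ((214 + 11 * I) * ω ^ 2).im = 214 * (ω ^ 2).im + 11 * (ω ^ 2).re := by simp
  have k : ∃ τ : ℝ, 0 ≤ τ ∧ ((ω ^ 2).re = -17 * τ ∧ (ω ^ 2).im = 144 * τ ∨
      (ω ^ 2).re = 143 * τ ∧ (ω ^ 2).im = -24 * τ) := by
    rw [e1, e2] at h
    rw [sq, mul_re, mul_im]
    rcases abs_cases (5 * ω.im - 2 * ω.re) with a | a <;> rw [a.1] at h
    · rw [show ω.im = 9 / 8 * ω.re by linarith]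
      exact ⟨ω.re ^ 2 / 64, by positivity, Or.inl ⟨by ring, by ring⟩⟩
    · rw [show ω.re = -12 * ω.im by linarith]
      exact ⟨ω.im ^ 2, by positivity, Or.inr ⟨by ring, by ring⟩⟩
  obtain ⟨τ, h0, k⟩ := k
  rw [hh, e3, e4]
  have a1 := le_abs_self (214 * (ω ^ 2).re - 11 * (ω ^ 2).im)
  have a2 := neg_abs_le (214 * (ω ^ 2).re - 11 * (ω ^ 2).im)
  have a3 := le_max_left 0 (214 * (ω ^ 2).re - 11 * (ω ^ 2).im)
  have a4 := le_max_right 0 (214 * (ω ^ 2).re - 11 * (ω ^ 2).im)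
  rcases k with ⟨k1, k2⟩ | ⟨k1, k2⟩ <;>
    exact ⟨abs_le.2 ⟨by linarith, by linarith⟩, max_le le_rfl (max_le (by linarith) (by linarith))⟩

theorem ray1 (ω : ℂ) (h : 2 * |((5 + 2 * I) * ω).im| = ((5 + 2 * I) * ω).re) :
    |((212 - 25 * I) * ω ^ 2).im| ≤ 100 * |((212 - 25 * I) * ω ^ 2).re| ∧
      hh (ω ^ 2) ≤ max 0 ((212 - 25 * I) * ω ^ 2).re := by
  have e1 : ((5 + 2 * I) * ω).re = 5 * ω.re - 2 * ω.im := by simp
  have e2 : ((5 + 2 * I) * ω).im = 5 * ω.im + 2 * ω.re := by simp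
  have e3 : ((212 - 25 * I) * ω ^ 2).re = 212 * (ω ^ 2).re + 25 * (ω ^ 2).im := by simp
  have e4 : ((212 - 25 * I) * ω ^ 2).im = 212 * (ω ^ 2).im - 25 * (ω ^ 2).re := by simp; ring
  have k : ∃ τ : ℝ, 0 ≤ τ ∧ ((ω ^ 2).re = -17 * τ ∧ (ω ^ 2).im = -144 * τ ∨
      (ω ^ 2).re = 143 * τ ∧ (ω ^ 2).im = 24 * τ) := by
    rw [e1, e2] at h
    rw [sq, mul_re, mul_im]
    rcases abs_cases (5 * ω.im + 2 * ω.re) with a | a <;> rw [a.1] at h
    · rw [show ω.re = 12 * ω.im by linarith]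
      exact ⟨ω.im ^ 2, by positivity, Or.inr ⟨by ring, by ring⟩⟩
    · rw [show ω.im = -9 / 8 * ω.re by linarith]
      exact ⟨ω.re ^ 2 / 64, by positivity, Or.inl ⟨by ring, by ring⟩⟩
  obtain ⟨τ, h0, k⟩ := k
  rw [hh, e3, e4]
  have a1 := le_abs_self (212 * (ω ^ 2).re + 25 * (ω ^ 2).im)
  have a2 := neg_abs_le (212 * (ω ^ 2).re + 25 * (ω ^ 2).im)
  have a3 := le_max_left 0 (212 * (ω ^ 2).re + 25 * (ω ^ 2).im)
  have a4 := le_max_right 0 (212 * (ω ^ 2).re + 25 * (ω ^ 2).im)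
  rcases k with ⟨k1, k2⟩ | ⟨k1, k2⟩ <;>
    exact ⟨abs_le.2 ⟨by linarith, by linarith⟩, max_le (max_le a3 (by linarith))
      (max_le (by linarith) a4)⟩

/-- The generators of the components. -/
noncomputable def EG (k j : ℕ) (s : ℂ) : ℂ :=
  if j = 0 then 1 + exp ((214 + 11 * I) * s) else if j = 1 then 1 + exp ((212 - 25 * I) * s)
    else if j < k then 1 else 0

/-- The components of the element with respect to which saturation fails. -/
noncomputable def FG (j : ℕ) (s : ℂ) : ℂ :=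
  if j = 0 then exp ((216 - I) * s) else exp ((214 + 11 * I) * s)

theorem EG_diff (k j : ℕ) : Differentiable ℂ (EG k j) := by
  unfold EG
  split_ifs <;> fun_prop

theorem FG_diff (j : ℕ) : Differentiable ℂ (FG j) := by
  unfold FG
  split_ifs <;> fun_prop

theorem FG_le (j : ℕ) (s : ℂ) : ‖FG j s‖ ≤ 2 * Real.exp (hh s) := by
  obtain ⟨-, h1, h2, -⟩ := le_hh s
  refine le_trans ?_ (le_mul_of_one_le_left (Real.exp_pos _).le one_le_two)
  unfold FG
  split_ifs <;> rw [norm_exp] <;> refine Real.exp_le_exp.2 ?_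
  · simpa using h2
  · simpa using h1

theorem EG_le (k j : ℕ) (s : ℂ) : ‖EG k j s‖ ≤ 2 * Real.exp (hh s) := by
  obtain ⟨h0, h1, -, h3⟩ := le_hh s
  have a0 := Real.one_le_exp h0
  have a1 : ∀ a : ℂ, a.re ≤ hh s → ‖1 + exp a‖ ≤ 2 * Real.exp (hh s) := fun a ha => by
    have := norm_add_le 1 (exp a)
    rw [norm_one, norm_exp] at this
    linarith [Real.exp_le_exp.2 ha]
  unfold EG
  split_ifs
  · exact a1 _ (by simpa using h1)
  · exact a1 _ (by simpa using h3)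
  · rw [norm_one]
    linarith
  · rw [norm_zero]
    linarith

theorem EG_ne {k j : ℕ} (h : j < k) : EG k j 0 ≠ 0 := by
  unfold EG
  split_ifs <;> norm_num

theorem EG_eq {k j : ℕ} (hk : 2 ≤ k) (h : k ≤ j) (s : ℂ) : EG k j s = 0 := by
  unfold EG
  rw [if_neg (by omega), if_neg (by omega), if_neg (by omega)]

variable {q : ℕ} {G : Set ℂ} {w σ : ℂ → ℂ} {t : ℂ → ℝ} {K : ℝ}

theorem ind_mem (D : Dom G w σ t K) {φ : Fin q → ℂ → ℂ} (hφ : ∀ j, Differentiable ℂ (φ j))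
    (hb : ∀ j s, ‖φ j s‖ ≤ 2 * Real.exp (hh s)) :
    G.indicator (fun z j => φ j (w z ^ 2)) ∈ PS q G (fun z => hh (w z ^ 2)) t := by
  refine ⟨⟨DifferentiableOn.congr (differentiableOn_pi.2 fun j =>
    (hφ j).comp_differentiableOn (D.w_diff.pow 2)) fun z hz => indicator_of_mem hz _,
    fun z hz => indicator_of_notMem hz _⟩, fun n => ⟨2, two_pos, fun z hz => ?_⟩⟩
  have hw := W_pos (H := fun z => hh (w z ^ 2)) (t := t) n z
  rw [indicator_of_mem hz]
  refine (pi_norm_le_iff_of_nonneg (by positivity)).2 fun j => (hb j _).trans ?_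
  have := D.one_le z hz
  exact mul_le_mul_of_nonneg_left (Real.exp_le_exp.2 (le_add_of_nonneg_right (by positivity)))
    zero_le_two

/-- The submodule. -/
noncomputable def IS (q k : ℕ) (G : Set ℂ) (w : ℂ → ℂ) (t : ℂ → ℝ) :
    Submodule ℂ (PS q G (fun z => hh (w z ^ 2)) t) where
  carrier := {u | ∀ z ∈ G, ∀ j : Fin q, EG k j (w z ^ 2) = 0 → u.1 z j = 0}
  add_mem' := fun {a b} ha hb z hz j h => by simp [ha z hz j h, hb z hz j h]
  zero_mem' := fun _ _ _ _ => rfl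
  smul_mem' := fun c a ha z hz j h => by simp [ha z hz j h]

theorem le_strictMono {r : ℕ} {J : Fin r → Fin q} (hJ : StrictMono J) :
    ∀ (i : ℕ) (h : i < r), i ≤ J ⟨i, h⟩ := by
  intro i
  induction i with
  | zero => exact fun _ => Nat.zero_le _
  | succ i ih =>
    intro h
    have h1 : J ⟨i, by omega⟩ < J ⟨i + 1, h⟩ := hJ (Fin.mk_lt_mk.2 (Nat.lt_succ_self i))
    exact Nat.succ_le_of_lt (lt_of_le_of_lt (ih (by omega)) h1)

theorem rank_IS (hG : IsOpen G) (D : Dom G w σ t K) {k : ℕ} (hk : 2 ≤ k) (hq : k ≤ q) :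
    Rank G Subtype.val (IS q k G w t) k := by
  classical
  have m0 : σ 0 ∈ G := D.σ_mem 0 (by norm_num)
  have w0 : w (σ 0) = 0 := D.w_σ 0 (by norm_num)
  have mem : ∀ s : Fin q, (G.indicator fun z (j : Fin q) =>
      if j = s then EG k j (w z ^ 2) else 0) ∈ PS q G (fun z => hh (w z ^ 2)) t := fun s => by
    refine ind_mem D (φ := fun j y => if j = s then EG k j y else 0) (fun j => ?_) fun j y => ?_
    · split_ifs
      · exact EG_diff k j
      · exact differentiable_const _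
    · split_ifs
      · exact EG_le k j y
      · rw [norm_zero]
        positivity
  refine ⟨⟨σ 0, m0, fun s => ⟨_, mem (Fin.castLE hq s)⟩, Fin.castLE hq, fun s z hz j h => ?_,
    Fin.strictMono_castLE hq, fun h => ?_⟩, ?_⟩
  · simp [indicator_of_mem hz, h]
  · have h1 := h.self_of_nhds
    rw [show minor Subtype.val (fun s : Fin k => (⟨_, mem (Fin.castLE hq s)⟩ :
        PS q G (fun z => hh (w z ^ 2)) t)) (Fin.castLE hq) (σ 0) =
        Matrix.diagonal fun s : Fin k => EG k s 0 from by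
      ext a b
      simp [minor, indicator_of_mem m0, w0, Matrix.diagonal_apply], Matrix.det_diagonal,
      Finset.prod_eq_zero_iff] at h1
    obtain ⟨s, -, hs⟩ := h1
    exact EG_ne s.2 hs
  rintro r ⟨c, hc, u, J, hu, hJ, hne⟩
  by_contra hr
  push Not at hr
  refine hne ?_
  filter_upwards [hG.mem_nhds hc] with z hz
  exact Matrix.det_eq_zero_of_row_eq_zero ⟨k, hr⟩ fun s =>
    hu s z hz _ (EG_eq hk (le_strictMono hJ k hr) _)

theorem small_row (D : Dom G w σ t K) (k : ℕ) {n : ℕ} (hn : 3 * K ≤ n + 1) {z : ℂ} (hz : z ∈ G)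
    (h1 : 0 < (w z).re) (h2 : 0 < (w z ^ 2).re) : ∃ j : ℕ, j < 2 ∧ ∀ v : ℂ → ℂ,
      DifferentiableOn ℂ v G → (∀ y ∈ G, EG k j (w y ^ 2) = 0 → v y = 0) →
      (∀ y ∈ G, ‖v y‖ ≤ (400 * Real.exp 1)⁻¹ * W (fun z => hh (w z ^ 2)) t n y) →
      ‖v z‖ ≤ ‖FG j (w z ^ 2)‖ * Real.exp (-(w z ^ 2).re) := by
  have e0 : 400 * ((400 * Real.exp 1)⁻¹ * Real.exp 1) = 1 := by field_simp
  have p1 : (w z ^ 2).re = (w z).re * (w z).re - (w z).im * (w z).im := by rw [sq, mul_re]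
  have p2 : (w z ^ 2).im = 2 * ((w z).re * (w z).im) := by rw [sq, mul_im]; ring
  have p3 : |(w z).im| < (w z).re := abs_lt_of_sq_lt_sq (by nlinarith) h1.le
  have p4 := abs_lt.1 p3
  rcases le_total 0 (w z).im with h3 | h3
  · refine ⟨0, two_pos, fun v hv hzero hb => ?_⟩
    have e1 : ((5 - 2 * I) * w z).re = 5 * (w z).re + 2 * (w z).im := by simp
    have e2 : ((5 - 2 * I) * w z).im = 5 * (w z).im - 2 * (w z).re := by simp; ring
    have key := row D (c := 5 - 2 * I) (C := 214 + 11 * I) (fun h => by simpa using congrArg re h)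
      (fun h => by simpa using congrArg re h) sec0 ray0 hv hzero hn (by positivity) hb hz (by
        rw [e1, e2]
        rcases abs_cases (5 * (w z).im - 2 * (w z).re) with a | a <;> linarith [a.1])
    rw [e0, one_mul] at key
    rw [FG, if_pos rfl, norm_exp, ← Real.exp_add]
    refine key.trans (Real.exp_le_exp.2 ?_)
    have q0 : 0 ≤ (w z ^ 2).im := by rw [p2]; positivity
    have e3 : (((5 - 2 * I) * w z) ^ 2).re = 21 * (w z ^ 2).re + 20 * (w z ^ 2).im := by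
      rw [sq, mul_re, e1, e2, p1, p2]
      ring
    have e4 : ((214 + 11 * I) * w z ^ 2).re = 214 * (w z ^ 2).re - 11 * (w z ^ 2).im := by simp
    have e5 : ((216 - I) * w z ^ 2).re = 216 * (w z ^ 2).re + (w z ^ 2).im := by simp
    have a1 : max 0 (214 * (w z ^ 2).re - 11 * (w z ^ 2).im) ≤ 214 * (w z ^ 2).re :=
      max_le (by linarith) (by linarith)
    rw [e3, e4, e5]
    linarith
  · refine ⟨1, one_lt_two, fun v hv hzero hb => ?_⟩
    have e1 : ((5 + 2 * I) * w z).re = 5 * (w z).re - 2 * (w z).im := by simp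
    have e2 : ((5 + 2 * I) * w z).im = 5 * (w z).im + 2 * (w z).re := by simp
    have key := row D (c := 5 + 2 * I) (C := 212 - 25 * I) (fun h => by simpa using congrArg re h)
      (fun h => by simpa using congrArg re h) sec1 ray1 hv hzero hn (by positivity) hb hz (by
        rw [e1, e2]
        rcases abs_cases (5 * (w z).im + 2 * (w z).re) with a | a <;> linarith [a.1])
    rw [e0, one_mul] at key
    rw [FG, if_neg one_ne_zero, norm_exp, ← Real.exp_add]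
    refine key.trans (Real.exp_le_exp.2 ?_)
    have q0 : (w z ^ 2).im ≤ 0 := by rw [p2]; nlinarith
    have e3 : (((5 + 2 * I) * w z) ^ 2).re = 21 * (w z ^ 2).re - 20 * (w z ^ 2).im := by
      rw [sq, mul_re, e1, e2, p1, p2]
      ring
    have e4 : ((212 - 25 * I) * w z ^ 2).re = 212 * (w z ^ 2).re + 25 * (w z ^ 2).im := by simp
    have e5 : ((214 + 11 * I) * w z ^ 2).re = 214 * (w z ^ 2).re - 11 * (w z ^ 2).im := by simp
    have a1 : max 0 (212 * (w z ^ 2).re + 25 * (w z ^ 2).im) ≤ 212 * (w z ^ 2).re :=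
      max_le (by linarith) (by linarith)
    rw [e3, e4, e5]
    linarith

theorem cramer_le {k : ℕ} (M : Matrix (Fin k) (Fin k) ℂ) (hM : M.det ≠ 0) (b : Fin k → ℂ)
    (r : Fin k) {s₀ : ℝ} (ht : ∀ s, ‖M r s‖ ≤ s₀) :
    ‖b r‖ ≤ s₀ * ∑ s, ‖(M.updateCol s b).det / M.det‖ := by
  have h := congrFun (Matrix.mulVec_cramer M b) r
  simp only [Matrix.mulVec, dotProduct, Matrix.cramer_apply, Pi.smul_apply, smul_eq_mul] at h
  have h2 : b r = ∑ s, M r s * ((M.updateCol s b).det / M.det) := by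
    simp only [← mul_div_assoc]
    rw [← Finset.sum_div, h, mul_div_cancel_left₀ _ hM]
  rw [h2, Finset.mul_sum]
  refine (norm_sum_le _ _).trans (Finset.sum_le_sum fun s _ => ?_)
  rw [norm_mul]
  exact mul_le_mul_of_nonneg_right (ht s) (norm_nonneg _)

theorem high (hG : IsOpen G) (hne : G.Nonempty) {k : ℕ} (hk : 2 ≤ k) (hq : k ≤ q) :
    ∃ (E : Type) (_ : AddCommGroup E) (_ : Module ℂ E) (_ : TopologicalSpace E)
      (ι : E → ℂ → Fin q → ℂ), TopMod G ι ∧ UnifStab G ι ∧ CondThree G ι ∧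
      ∃ I : Submodule ℂ E, Divis G ι I ∧ Rank G ι I k ∧ Extra G ι I ∧ ¬ OverSat G ι I k := by
  obtain ⟨w, σ, t, K, D⟩ := exists_dom hG hne
  have h : Wt G (fun z => hh (w z ^ 2)) t K 241 := ⟨hG, D.K_pos, D.one_le, D.norm_le,
    fun z hz y hy => by
      obtain ⟨a1, a2, a3⟩ := D.near z hz y hy
      exact ⟨a1, a2, by linarith [hh_lip (w y ^ 2) (w z ^ 2)]⟩⟩
  refine ⟨_, _, _, tauS q h, Subtype.val, topMod_PS h, unifStab_PS h, condThree_PS h,
    IS q k G w t, ⟨fun p f hf => ⟨⟨_, polyMod_PS h p f⟩, fun z hz j e => by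
      simp [hf z hz j e], fun _ => rfl⟩, fun f hl z hz j e => ?_⟩, rank_IS hG D hk hq,
    ⟨firstC_PS h, complete_PS h, eval_contS h, inBdd_PS h, ?_⟩, fun hS => ?_⟩
  · obtain ⟨n, u, a, hu, -, he⟩ := hl z hz
    rw [he.self_of_nhds, Finset.sum_apply]
    exact Finset.sum_eq_zero fun m _ => by simp [hu m z hz j e]
  · let _ := tauS q h
    rw [show (IS q k G w t : Set (PS q G (fun z => hh (w z ^ 2)) t)) =
        ⋂ z ∈ G, ⋂ j : Fin q, ⋂ _ : EG k j (w z ^ 2) = 0, {x | x.1 z j = 0} from by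
      ext x
      simp only [mem_ofPred_eq, mem_iInter]
      rfl]
    exact isClosed_biInter fun z _ => isClosed_iInter fun j => isClosed_iInter fun _ =>
      isClosed_eq ((continuous_apply j).comp (eval_contS h z)) continuous_const
  obtain ⟨Φ, d1, d2, d3, d4⟩ := exists_Phi
  obtain ⟨n, hn⟩ := exists_nat_ge (3 * K)
  obtain ⟨C, hC⟩ := hS ⟨_, ind_mem D (φ := fun j : Fin q => FG j) (fun j => FG_diff j)
    fun j => FG_le j⟩ _ (BS_mem_nhds h n (δ := (400 * Real.exp 1)⁻¹) (by positivity))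
    (fun z => Φ (w z)) (d1.comp_differentiableOn D.w_diff) fun z hz u J hu hJ hd => by
      have s0 : ∀ M : Fin k → ℂ, 0 ≤ ∑ s, ‖M s‖ := fun M => by positivity
      by_cases h1 : (w z).re ≤ 0
      · exact (d2 _ h1).trans (le_add_of_nonneg_right (s0 _))
      by_cases h2 : (w z ^ 2).re ≤ 0
      · exact (d3 _).trans (max_le (le_add_of_nonneg_right (s0 _))
          ((Real.exp_le_one_iff.2 h2).trans (le_add_of_nonneg_right (s0 _))))
      obtain ⟨j, hj, hs⟩ := small_row D k (n := n) (by linarith) hz (not_le.1 h1) (not_le.1 h2)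
      have hlt : ∀ r, (J r : ℕ) < k := fun r => lt_of_not_ge fun h' => hd
        (Matrix.det_eq_zero_of_row_eq_zero r fun s => (hu s).2 z hz _ (EG_eq hk h' _))
      obtain ⟨r, hr⟩ := Finite.injective_iff_surjective.mp
        (show Function.Injective fun r => (⟨J r, hlt r⟩ : Fin k) from fun a b h' =>
          hJ.injective (Fin.ext (Fin.mk.inj h'))) ⟨j, by omega⟩
      obtain rfl : (J r : ℕ) = j := Fin.mk.inj hr
      have h3 := cramer_le _ hd (fun r => G.indicator (fun z (j : Fin q) => FG j (w z ^ 2)) z (J r))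
        r (s₀ := ‖FG (J r) (w z ^ 2)‖ * Real.exp (-(w z ^ 2).re)) fun s =>
          hs (fun y => (u s).1 y (J r)) (differentiableOn_pi.1 (u s).2.1.1 _)
            (fun y hy => (hu s).2 y hy _)
            fun y hy => (norm_le_pi_norm _ _).trans ((hu s).1 y hy)
      have p : 0 < ‖FG (J r) (w z ^ 2)‖ := by
        unfold FG
        split_ifs <;> exact norm_pos_iff.2 (exp_ne_zero _)
      rw [show G.indicator (fun z (j : Fin q) => FG j (w z ^ 2)) z (J r) = FG (J r) (w z ^ 2) by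
        rw [indicator_of_mem hz], mul_assoc, le_mul_iff_one_le_right p, Real.exp_neg,
        inv_mul_eq_div, one_le_div (Real.exp_pos _)] at h3
      exact (d3 _).trans (max_le (le_add_of_nonneg_right (s0 _))
        (h3.trans (le_add_of_nonneg_left zero_le_one)))
  obtain ⟨x, hx, hx'⟩ := d4 C
  have a1 : -(1 / 2) < (x : ℂ).re := by rw [ofReal_re]; linarith
  have a2 := hC _ (D.σ_mem _ a1)
  rw [D.w_σ _ a1] at a2
  linarith

end Pool.Agent.Lib.MP_efa496_an.Sh
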