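import Pool.Agent.Lib.MP_efa496_an.Space
import Pool.Agent.Lib.MP_efa496_an.Sh.Defs

/-!
A weighted Frechet space of holomorphic vector functions on an arbitrary domain.
-/

set_option autoImplicit false

namespace Pool.Agent.Lib.MP_efa496_an.Sh

open Filter Topology Set Pointwise

/-- The weights. -/
noncomputable def W (H t : ℂ → ℝ) (n : ℕ) (z : ℂ) : ℝ := Real.exp (H z + t z / (n + 1))

/-- The weights oscillate little on small discs. -/
structure Wt (G : Set ℂ) (H t : ℂ → ℝ) (K L : ℝ) : Prop where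
  isOpen : IsOpen G
  K_pos : 0 < K
  one_le : ∀ z ∈ G, 1 ≤ t z
  norm_le : ∀ z ∈ G, ‖z‖ ≤ t z
  near : ∀ z ∈ G, ∀ y : ℂ, ‖y - z‖ ≤ 1 / (K * t z ^ 3) → y ∈ G ∧ t y ≤ t z + 1 ∧ H y ≤ H z + L

variable {q : ℕ} {G : Set ℂ} {H t : ℂ → ℝ} {K L : ℝ}

theorem W_pos (n : ℕ) (z : ℂ) : 0 < W H t n z := Real.exp_pos _

theorem W_anti (h : Wt G H t K L) {n m : ℕ} (hn : n ≤ m) {z : ℂ} (hz : z ∈ G) :
    W H t m z ≤ W H t n z := by
  have h1 : (n : ℝ) ≤ m := by exact_mod_cast hn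
  have h2 := h.one_le z hz
  unfold W
  gcongr

theorem W_half (n : ℕ) (z : ℂ) :
    Real.exp (t z / (2 * (n + 1))) * W H t (2 * n + 1) z = W H t n z := by
  unfold W
  rw [← Real.exp_add]
  congr 1
  push_cast
  field_simp
  ring

theorem W_near (h : Wt G H t K L) (n : ℕ) {z y : ℂ} (hz : z ∈ G)
    (hy : ‖y - z‖ ≤ 1 / (K * t z ^ 3)) : W H t n y ≤ Real.exp (L + 1) * W H t n z := by
  obtain ⟨-, h1, h2⟩ := h.near z hz y hy
  have h3 : (1 : ℝ) ≤ n + 1 := by linarith [Nat.cast_nonneg (α := ℝ) n]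
  have h4 : t y / (n + 1) ≤ t z / (n + 1) + 1 := by
    have a1 : t y / (n + 1) ≤ (t z + 1) / (n + 1) := by gcongr
    have a2 : (1 : ℝ) / (n + 1) ≤ 1 := div_le_self zero_le_one h3
    rw [add_div] at a1
    linarith
  unfold W
  rw [← Real.exp_add]
  exact Real.exp_le_exp.2 (by linarith)

/-- The space. -/
noncomputable def PS (q : ℕ) (G : Set ℂ) (H t : ℂ → ℝ) : Submodule ℂ (ℂ → Fin q → ℂ) where
  carrier := {u | Hol G u ∧ ∀ n : ℕ, ∃ C : ℝ, 0 < C ∧ ∀ z ∈ G, ‖u z‖ ≤ C * W H t n z}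
  add_mem' := by
    rintro a b ⟨ha, ha'⟩ ⟨hb, hb'⟩
    refine ⟨⟨ha.1.add hb.1, fun w hw => by simp [ha.2 w hw, hb.2 w hw]⟩, fun n => ?_⟩
    obtain ⟨C, hC, h1⟩ := ha' n
    obtain ⟨E, hE, h2⟩ := hb' n
    refine ⟨C + E, by positivity, fun z hz => (norm_add_le (a z) (b z)).trans ?_⟩
    linarith [h1 z hz, h2 z hz]
  zero_mem' := ⟨⟨differentiableOn_const _, fun _ _ => rfl⟩, fun n => ⟨1, one_pos, fun z _ => by
    simpa using (W_pos n z).le⟩⟩
  smul_mem' := by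
    rintro c a ⟨ha, ha'⟩
    refine ⟨⟨ha.1.const_smul c, fun w hw => by simp [ha.2 w hw]⟩, fun n => ?_⟩
    obtain ⟨C, hC, h1⟩ := ha' n
    refine ⟨(‖c‖ + 1) * C, by positivity, fun z hz => ?_⟩
    rw [Pi.smul_apply, norm_smul, mul_assoc]
    exact mul_le_mul (by linarith) (h1 z hz) (norm_nonneg _) (by positivity)

/-- Basic neighbourhoods of zero. -/
def BS (q : ℕ) (G : Set ℂ) (H t : ℂ → ℝ) (n : ℕ) (δ : ℝ) : Set (PS q G H t) :=
  {u | ∀ z ∈ G, ‖u.1 z‖ ≤ δ * W H t n z}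

theorem BS_mono (h : Wt G H t K L) {n m : ℕ} {δ ε : ℝ} (hn : n ≤ m) (h0 : 0 ≤ δ) (h' : δ ≤ ε) :
    BS q G H t m δ ⊆ BS q G H t n ε := fun _ hu z hz =>
  (hu z hz).trans (mul_le_mul h' (W_anti h hn hz) (W_pos _ _).le (h0.trans h'))

theorem smul_mem_BS {n : ℕ} {δ ε : ℝ} {u : PS q G H t} {c : ℂ} (hu : u ∈ BS q G H t n δ)
    (h : ‖c‖ * δ ≤ ε) : c • u ∈ BS q G H t n ε := fun z hz => by
  simp only [Submodule.coe_smul, Pi.smul_apply, norm_smul]
  refine (mul_le_mul_of_nonneg_left (hu z hz) (norm_nonneg c)).trans ?_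
  rw [← mul_assoc]
  exact mul_le_mul_of_nonneg_right h (W_pos _ _).le

theorem add_mem_BS {n : ℕ} {δ ε : ℝ} {u v : PS q G H t} (hu : u ∈ BS q G H t n δ)
    (hv : v ∈ BS q G H t n ε) : u + v ∈ BS q G H t n (δ + ε) := fun z hz => by
  simp only [Submodule.coe_add, Pi.add_apply]
  linarith [hu z hz, hv z hz, norm_add_le (u.1 z) (v.1 z)]

/-- The additive group filter basis. -/
@[reducible] noncomputable def gbS (q : ℕ) (h : Wt G H t K L) : AddGroupFilterBasis (PS q G H t) :=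
  addGroupFilterBasisOfComm {U | ∃ n : ℕ, ∃ δ : ℝ, 0 < δ ∧ U = BS q G H t n δ}
    ⟨BS q G H t 0 1, 0, 1, one_pos, rfl⟩
    (by
      rintro _ _ ⟨n, δ, hδ, rfl⟩ ⟨m, ε, hε, rfl⟩
      refine ⟨BS q G H t (max n m) (min δ ε), ⟨_, _, lt_min hδ hε, rfl⟩, subset_inter ?_ ?_⟩
      · exact BS_mono h (le_max_left _ _) (lt_min hδ hε).le (min_le_left _ _)
      · exact BS_mono h (le_max_right _ _) (lt_min hδ hε).le (min_le_right _ _))
    (by
      rintro _ ⟨n, δ, hδ, rfl⟩ z _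
      simpa using (mul_pos hδ (W_pos n _)).le)
    (by
      rintro _ ⟨n, δ, hδ, rfl⟩
      refine ⟨BS q G H t n (δ / 2), ⟨_, _, half_pos hδ, rfl⟩, ?_⟩
      rintro _ ⟨u, hu, v, hv, rfl⟩
      have := add_mem_BS hu hv
      rwa [add_halves] at this)
    (by
      rintro _ ⟨n, δ, hδ, rfl⟩
      refine ⟨BS q G H t n δ, ⟨_, _, hδ, rfl⟩, ?_⟩
      intro u hu z hz
      simpa using hu z hz)

/-- The module filter basis. -/
noncomputable def mbS (q : ℕ) (h : Wt G H t K L) : ModuleFilterBasis ℂ (PS q G H t) :=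
  { gbS q h with
    smul' := by
      rintro _ ⟨n, δ, hδ, rfl⟩
      refine ⟨Metric.ball 0 1, Metric.ball_mem_nhds _ one_pos, BS q G H t n δ,
        ⟨_, _, hδ, rfl⟩, ?_⟩
      rintro _ ⟨c, hc, v, hv, rfl⟩
      apply smul_mem_BS hv
      have : ‖c‖ < 1 := by simpa using hc
      nlinarith
    smul_left' := by
      rintro c _ ⟨n, δ, hδ, rfl⟩
      refine ⟨BS q G H t n (δ / (‖c‖ + 1)), ⟨_, _, by positivity, rfl⟩, ?_⟩
      intro v hv
      apply smul_mem_BS hv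
      rw [mul_div_assoc', div_le_iff₀ (by positivity)]
      nlinarith
    smul_right' := by
      rintro v _ ⟨n, δ, hδ, rfl⟩
      obtain ⟨C, hC, hv⟩ := v.2.2 n
      filter_upwards [Metric.ball_mem_nhds (0 : ℂ) (div_pos hδ hC)] with c hc
      apply smul_mem_BS (δ := C) hv
      have : ‖c‖ < δ / C := by simpa using hc
      rw [lt_div_iff₀ hC] at this
      exact this.le }

/-- The topology. -/
@[reducible] noncomputable def tauS (q : ℕ) (h : Wt G H t K L) : TopologicalSpace (PS q G H t) :=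
  (mbS q h).topology

theorem mem_nhds_tauS (h : Wt G H t K L) {V : Set (PS q G H t)} :
    V ∈ @nhds _ (tauS q h) 0 ↔ ∃ n : ℕ, ∃ δ : ℝ, 0 < δ ∧ BS q G H t n δ ⊆ V := by
  have h1 := (mbS q h).toAddGroupFilterBasis.nhds_zero_hasBasis
  rw [h1.mem_iff]
  constructor
  · rintro ⟨_, ⟨n, δ, hδ, rfl⟩, h2⟩
    exact ⟨n, δ, hδ, h2⟩
  · rintro ⟨n, δ, hδ, h2⟩
    exact ⟨_, ⟨n, δ, hδ, rfl⟩, h2⟩

theorem BS_mem_nhds (h : Wt G H t K L) (n : ℕ) {δ : ℝ} (hδ : 0 < δ) :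
    BS q G H t n δ ∈ @nhds _ (tauS q h) 0 :=
  (mem_nhds_tauS h).2 ⟨n, δ, hδ, Subset.rfl⟩

theorem tauS_addGroup (h : Wt G H t K L) : @IsTopologicalAddGroup _ (tauS q h) _ :=
  (mbS q h).toAddGroupFilterBasis.isTopologicalAddGroup

theorem eval_contS (h : Wt G H t K L) (z : ℂ) :
    @Continuous (PS q G H t) (Fin q → ℂ) (tauS q h) _ fun x => x.1 z := by
  let _ := tauS q h
  have := tauS_addGroup (q := q) h
  by_cases hz : z ∈ G
  swap
  · rw [show (fun x : PS q G H t => x.1 z) = fun _ => 0 from funext fun x => x.2.1.2 z hz]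
    exact continuous_const
  refine continuous_of_continuousAt_zero
    ((LinearMap.proj z : (ℂ → Fin q → ℂ) →ₗ[ℂ] Fin q → ℂ).comp (PS q G H t).subtype) ?_
  rw [ContinuousAt, map_zero]
  refine Metric.tendsto_nhds.2 fun ε hε => ?_
  have hw := W_pos (H := H) (t := t) 0 z
  filter_upwards [BS_mem_nhds h 0 (δ := ε / 2 / W H t 0 z) (by positivity)] with f hf
  have := hf z hz
  rw [div_mul_cancel₀ _ hw.ne'] at this
  simpa using this.trans_lt (half_lt_self hε)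

theorem poly_boundS (h : Wt G H t K L) (p : Polynomial ℂ) (n : ℕ) : ∃ A : ℝ, 0 < A ∧
    ∀ (f : ℂ → Fin q → ℂ) (C : ℝ), 0 ≤ C → (∀ z ∈ G, ‖f z‖ ≤ C * W H t (2 * n + 1) z) →
      ∀ z ∈ G, ‖p.eval z • f z‖ ≤ A * C * W H t n z := by
  obtain ⟨A, hA, hp⟩ := poly_bound p (η := 1 / (2 * (n + 1))) (by positivity)
  refine ⟨A, hA, fun f C hC hf z hz => ?_⟩
  have h1 : ‖p.eval z‖ ≤ A * Real.exp (t z / (2 * (n + 1))) := (hp z).trans (by
    rw [one_div_mul_eq_div]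
    gcongr
    exact h.norm_le z hz)
  rw [norm_smul, ← W_half n]
  exact (mul_le_mul h1 (hf z hz) (norm_nonneg _) (by positivity)).trans_eq (by ring)

theorem polyMod_PS (h : Wt G H t K L) (p : Polynomial ℂ) (f : PS q G H t) :
    (fun w => p.eval w • f.1 w) ∈ PS q G H t := by
  refine ⟨⟨p.differentiable.differentiableOn.smul f.2.1.1, fun w hw => by
    simp only [f.2.1.2 w hw, smul_zero]⟩, fun n => ?_⟩
  obtain ⟨A, hA, h1⟩ := poly_boundS (q := q) h p n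
  obtain ⟨C, hC, hf'⟩ := f.2.2 (2 * n + 1)
  exact ⟨A * C, mul_pos hA hC, h1 f C hC.le hf'⟩

theorem basis_PS (h : Wt G H t K L) : (@nhds _ (tauS q h) 0).HasBasis (fun _ : ℕ × ℕ => True)
    fun x => BS q G H t x.1 (1 / ((x.2 : ℝ) + 1)) := by
  refine ⟨fun V => (mem_nhds_tauS h).trans ⟨?_, ?_⟩⟩
  · rintro ⟨n, δ, hδ, h1⟩
    obtain ⟨m, hm⟩ := exists_nat_one_div_lt hδ
    exact ⟨(n, m), trivial, (BS_mono h le_rfl (by positivity) hm.le).trans h1⟩
  · rintro ⟨x, -, h1⟩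
    exact ⟨_, _, by positivity, h1⟩

theorem topMod_PS (h : Wt G H t K L) :
    @TopMod q (PS q G H t) _ _ (tauS q h) G Subtype.val := by
  let _ := tauS q h
  have := tauS_addGroup (q := q) h
  have : ContinuousSMul ℂ (PS q G H t) := (mbS q h).continuousSMul
  refine ⟨Subtype.val_injective, ⟨fun _ _ => rfl, fun _ _ => rfl⟩, fun f => f.2.1, ?_,
    inferInstance, this, ?_, fun p => ⟨fun f => ⟨_, polyMod_PS h p f⟩, ?_, fun _ _ => rfl⟩⟩
  · exact T2Space.of_injective_continuous (f := fun x : PS q G H t => x.1) Subtype.val_injective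
      (continuous_pi (eval_contS h))
  · refine LocallyConvexSpace.ofBasisZero ℝ (PS q G H t) _ _ (basis_PS h)
      fun x _ u hu v hv a b ha hb e => ?_
    have := add_mem_BS (smul_mem_BS (c := (a : ℂ)) (ε := a * (1 / ((x.2 : ℝ) + 1))) hu
      (by simp [abs_of_nonneg ha])) (smul_mem_BS (c := (b : ℂ)) (ε := b * (1 / ((x.2 : ℝ) + 1))) hv
      (by simp [abs_of_nonneg hb]))
    rwa [← add_mul, e, one_mul] at this
  let g' : PS q G H t →+ PS q G H t := AddMonoidHom.mk' (fun f => ⟨_, polyMod_PS h p f⟩) (by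
    intro a b
    apply Subtype.ext
    funext w
    simp [smul_add])
  refine continuous_of_continuousAt_zero g' ?_
  rw [ContinuousAt, map_zero]
  intro V hV
  obtain ⟨n, δ, hδ, hV⟩ := (mem_nhds_tauS h).1 hV
  obtain ⟨A, hA, h1⟩ := poly_boundS (q := q) h p n
  refine (mem_nhds_tauS h).2 ⟨2 * n + 1, δ / A, by positivity, fun x hx => hV fun z hz => ?_⟩
  have := h1 x (δ / A) (by positivity) hx z hz
  rwa [mul_div_cancel₀ _ hA.ne'] at this

theorem div_boundS (h : Wt G H t K L) (n : ℕ) : ∃ A : ℝ, 0 < A ∧ ∀ (c : ℂ) (x g : ℂ → Fin q → ℂ)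
    (C : ℝ), 0 ≤ C → DifferentiableOn ℂ g G → (∀ w ∈ G, x w = (w - c) • g w) →
      (∀ z ∈ G, ‖x z‖ ≤ C * W H t (2 * n + 1) z) → ∀ z ∈ G, ‖g z‖ ≤ A * C * W H t n z := by
  have hK := h.K_pos
  refine ⟨2 * K * (6 * (2 * (n + 1)) ^ 3) * Real.exp (|L| + 1), by positivity,
    fun c x g C hC hg hx hb z hz => ?_⟩
  have t1 := h.one_le z hz
  obtain ⟨ρ, hρ⟩ : ∃ ρ, ρ = 1 / (K * t z ^ 3) := ⟨_, rfl⟩
  have r0 : 0 < ρ := by rw [hρ]; positivity
  have hw := W_pos (H := H) (t := t) (2 * n + 1) z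
  have far : ∀ y, ‖y - z‖ ≤ ρ → ρ / 2 ≤ ‖y - c‖ →
      ‖g y‖ ≤ 2 / ρ * (C * (Real.exp (|L| + 1) * W H t (2 * n + 1) z)) := fun y hy hc => by
    have yG := (h.near z hz y (hρ ▸ hy)).1
    have a1 := hb y yG
    rw [hx y yG, norm_smul] at a1
    have a2 : W H t (2 * n + 1) y ≤ Real.exp (|L| + 1) * W H t (2 * n + 1) z :=
      (W_near h _ hz (hρ ▸ hy)).trans (by gcongr; exact le_abs_self L)
    have a3 := mul_le_mul_of_nonneg_left a2 hC
    have a4 := mul_le_mul_of_nonneg_right hc (norm_nonneg (g y))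
    rw [div_mul_eq_mul_div, le_div_iff₀ r0]
    linarith
  have key : ‖g z‖ ≤ 2 / ρ * (C * (Real.exp (|L| + 1) * W H t (2 * n + 1) z)) := by
    by_cases hc : ρ / 2 ≤ ‖z - c‖
    · exact far z (by simpa using r0.le) hc
    have sub : Metric.closedBall z ρ ⊆ G := fun y hy =>
      (h.near z hz y (hρ ▸ mem_closedBall_iff_norm.1 hy)).1
    refine Complex.norm_le_of_forall_mem_frontier_norm_le (U := Metric.ball z ρ)
      Metric.isBounded_ball (hg.diffContOnCl_ball sub) (fun y hy => ?_)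
      (subset_closure (Metric.mem_ball_self r0))
    rw [frontier_ball z r0.ne', mem_sphere_iff_norm] at hy
    refine far y hy.le ?_
    have := norm_sub_le (y - c) (z - c)
    rw [sub_sub_sub_cancel_right, hy] at this
    linarith
  have b1 := Real.pow_div_factorial_le_exp (t z / (2 * (n + 1))) (by positivity) 3
  have b2 : t z ^ 3 ≤ 6 * (2 * (n + 1)) ^ 3 * Real.exp (t z / (2 * (n + 1))) := by
    rw [div_pow, div_div, div_le_iff₀ (by positivity)] at b1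
    simp only [Nat.factorial, Nat.succ_eq_add_one] at b1
    push_cast at b1
    linarith
  have b3 : 2 / ρ = 2 * K * t z ^ 3 := by rw [hρ]; field_simp
  rw [b3] at key
  rw [← W_half n]
  refine key.trans ((mul_le_mul_of_nonneg_right (mul_le_mul_of_nonneg_left b2 (by positivity))
    (by positivity)).trans_eq (by ring))

theorem unifStab_PS (h : Wt G H t K L) :
    @UnifStab q (PS q G H t) _ (tauS q h) G Subtype.val := fun V hV => by
  obtain ⟨n, δ, hδ, hV⟩ := (mem_nhds_tauS h).1 hV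
  obtain ⟨A, hA, h1⟩ := div_boundS (q := q) h n
  refine ⟨_, BS_mem_nhds h (2 * n + 1) (div_pos hδ hA), fun c x hx g hg e =>
    ⟨⟨g, hg, fun m => ?_⟩, hV fun z hz => ?_, rfl⟩⟩
  · obtain ⟨B, hB, h2⟩ := div_boundS (q := q) h m
    obtain ⟨C, hC, h3⟩ := x.2.2 (2 * m + 1)
    exact ⟨B * C, mul_pos hB hC, h2 c x g C hC.le hg.1 e h3⟩
  · have := h1 c x g _ (div_pos hδ hA).le hg.1 e hx z hz
    rwa [mul_div_cancel₀ _ hA.ne'] at this

theorem inBdd_PS (h : Wt G H t K L) (n : ℕ) (F : Fin n → PS q G H t) :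
    @InBdd q (PS q G H t) _ _ (tauS q h) G Subtype.val
      {g | ∀ w ∈ G, ‖g w‖ ≤ ∑ m, ‖(F m).1 w‖} := by
  have hs : ∀ m, ∃ C : ℝ, 0 < C ∧ ∀ z ∈ G, ∑ i, ‖(F i).1 z‖ ≤ C * W H t m z := fun m => by
    choose C hC hF using fun i => (F i).2.2 m
    have h0 : 0 ≤ ∑ i, C i := Finset.sum_nonneg fun i _ => (hC i).le
    refine ⟨∑ i, C i + 1, by linarith, fun z hz => ?_⟩
    rw [add_mul, Finset.sum_mul]
    linarith [Finset.sum_le_sum fun i (_ : i ∈ Finset.univ) => hF i z hz,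
      W_pos (H := H) (t := t) m z]
  refine ⟨fun g hg hh => ⟨⟨g, hh, fun m => ?_⟩, rfl⟩, fun V hV => ?_⟩
  · obtain ⟨C, hC, h1⟩ := hs m
    exact ⟨C, hC, fun z hz => (hg z hz).trans (h1 z hz)⟩
  obtain ⟨m, δ, hδ, hV⟩ := (mem_nhds_tauS h).1 hV
  obtain ⟨C, hC, h1⟩ := hs m
  refine Absorbs.of_norm ⟨C / δ, fun a ha x hx => ?_⟩
  have ha0 : 0 < ‖a‖ := lt_of_lt_of_le (div_pos hC hδ) ha
  refine ⟨a⁻¹ • x, hV (smul_mem_BS (δ := C) (fun z hz => (hx z hz).trans (h1 z hz)) ?_),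
    smul_inv_smul₀ (norm_pos_iff.mp ha0) x⟩
  rw [norm_inv, inv_mul_le_iff₀ ha0]
  rwa [div_le_iff₀ hδ] at ha

theorem condThree_PS (h : Wt G H t K L) :
    @CondThree q (PS q G H t) _ _ (tauS q h) G Subtype.val := fun n F => by
  let _ := tauS q h
  have k : ∀ g : ℂ → Fin q → ℂ, (∀ w ∈ G, ∀ i, ‖g w i‖ ≤ ∑ m, ‖(F m).1 w i‖) →
      ∀ w ∈ G, ‖g w‖ ≤ ∑ m, ‖(F m).1 w‖ := fun g hg z hz =>
    (pi_norm_le_iff_of_nonneg (by positivity)).2 fun j => (hg z hz j).trans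
      (Finset.sum_le_sum fun m _ => norm_le_pi_norm _ j)
  exact ⟨fun g hg => (inBdd_PS h n F).1 g (k g hg), (inBdd_PS h n F).2.subset fun x hx => k _ hx⟩

theorem firstC_PS (h : Wt G H t K L) : @FirstCountableTopology (PS q G H t) (tauS q h) := by
  let _ := tauS q h
  have := tauS_addGroup (q := q) h
  have := (basis_PS (q := q) h).isCountablyGenerated
  exact ⟨fun x => by rw [← nhds_translation_sub]; infer_instance⟩

theorem complete_PS (h : Wt G H t K L) (x : ℕ → PS q G H t)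
    (hx : Tendsto (fun m : ℕ × ℕ => x m.1 - x m.2) atTop (@nhds _ (tauS q h) 0)) :
    ∃ y, Tendsto x atTop (@nhds _ (tauS q h) y) := by
  let _ := tauS q h
  have := tauS_addGroup (q := q) h
  have h1 : ∀ n δ, 0 < δ → ∃ N, ∀ a ≥ N, ∀ b ≥ N, x a - x b ∈ BS q G H t n δ := fun n δ hδ => by
    obtain ⟨N, hN⟩ := eventually_atTop.1 (hx (BS_mem_nhds h n hδ))
    exact ⟨max N.1 N.2, fun a ha b hb => hN (a, b) ⟨le_of_max_le_left ha, le_of_max_le_right hb⟩⟩
  have h2 : ∀ z, ∃ a, Tendsto (fun m => (x m).1 z) atTop (𝓝 a) := fun z => by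
    refine cauchySeq_tendsto_of_complete (cauchySeq_iff_tendsto_dist_atTop_0.2 ?_)
    have := (((eval_contS h z).tendsto 0).comp hx).norm
    simpa [dist_eq_norm, Function.comp_def] using this
  choose g hg using h2
  have h3 : ∀ n δ, 0 < δ → ∀ᶠ m in atTop, ∀ z ∈ G, ‖(x m).1 z - g z‖ ≤ δ * W H t n z :=
    fun n δ hδ => by
      obtain ⟨N, hN⟩ := h1 n δ hδ
      filter_upwards [eventually_ge_atTop N] with a ha z hz
      refine le_of_tendsto ((tendsto_const_nhds.sub (hg z)).norm) ?_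
      filter_upwards [eventually_ge_atTop N] with b hb using hN a ha b hb z hz
  have h4 : DifferentiableOn ℂ g G := fun z hz => by
    have t1 := h.one_le z hz
    have hK := h.K_pos
    have r0 : 0 < 1 / (K * t z ^ 3) := by positivity
    have hw := W_pos (H := H) (t := t) 0 z
    have nb : ∀ y ∈ Metric.ball z (1 / (K * t z ^ 3)), ‖y - z‖ ≤ 1 / (K * t z ^ 3) :=
      fun y hy => (mem_ball_iff_norm.1 hy).le
    have h5 : TendstoUniformlyOn (fun m w => (x m).1 w) g atTop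
        (Metric.ball z (1 / (K * t z ^ 3))) := Metric.tendstoUniformlyOn_iff.2 fun ε hε => by
      filter_upwards [h3 0 (ε / 2 / (Real.exp (L + 1) * W H t 0 z)) (by positivity)] with m hm y hy
      rw [dist_comm, dist_eq_norm]
      refine ((hm y (h.near z hz y (nb y hy)).1).trans ?_).trans_lt (half_lt_self hε)
      rw [div_mul_eq_mul_div, div_le_iff₀ (by positivity)]
      exact mul_le_mul_of_nonneg_left (W_near h 0 hz (nb y hy)) (by positivity)
    exact ((h5.tendstoLocallyUniformlyOn.differentiableOn (Eventually.of_forall fun m =>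
      (x m).2.1.1.mono fun y hy => (h.near z hz y (nb y hy)).1)
      Metric.isOpen_ball).differentiableAt (Metric.ball_mem_nhds z r0)).differentiableWithinAt
  have h5 : g ∈ PS q G H t := ⟨⟨h4, fun w hw => tendsto_nhds_unique (hg w) (by
      simp only [fun m => (x m).2.1.2 w hw]
      exact tendsto_const_nhds)⟩, fun n => by
    obtain ⟨m, hm⟩ := (h3 n 1 one_pos).exists
    obtain ⟨C, hC, h6⟩ := (x m).2.2 n
    refine ⟨C + 1, by positivity, fun z hz => ?_⟩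
    have := norm_sub_norm_le (g z) ((x m).1 z)
    rw [norm_sub_rev] at this
    linarith [hm z hz, h6 z hz]⟩
  refine ⟨⟨g, h5⟩, fun V hV => ?_⟩
  rw [← nhds_translation_sub] at hV
  obtain ⟨U, hU, h6⟩ := hV
  obtain ⟨n, δ, hδ, hU'⟩ := (mem_nhds_tauS h).1 hU
  exact (h3 n δ hδ).mono fun m hm => h6 (hU' hm)

end Pool.Agent.Lib.MP_efa496_an.Sh
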